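import Pool.Agent.TH774.TD.Walk
import Pool.Agent.Y588.PD.Fn
import Pool.Agent.Helper227.VL

set_option autoImplicit false

/-! Locally constant functions on subsets of the Cantor space, and codes for continuous maps. -/

namespace Pool.Agent.N620.WP

open Pool.Agent.Helper227
open Encodable

/-- `f` is locally constant on `P`. -/
def LC {α : Type*} (f : (ℕ → Bool) → α) (P : Set (ℕ → Bool)) : Prop :=
  ∀ x ∈ P, ∃ k, ∀ x' ∈ P, pre x' k = pre x k → f x' = f x

theorem pre_eq_iff {x y : ℕ → Bool} {k : ℕ} : pre x k = pre y k ↔ ∀ i < k, x i = y i := by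
  constructor
  · intro h i hi
    have h1 : (pre x k)[i]? = (pre y k)[i]? := by rw [h]
    rw [pre_getElem? _ _ _ hi, pre_getElem? _ _ _ hi] at h1
    exact Option.some.inj h1
  · intro h
    refine List.ext_getElem (by simp) fun i h1 h2 => ?_
    rw [getElem_pre, getElem_pre]
    exact h i (by simpa using h1)

theorem pre_eq_mono {x y : ℕ → Bool} {k l : ℕ} (h : k ≤ l) (h1 : pre x l = pre y l) :
    pre x k = pre y k :=
  pre_eq_iff.2 fun i hi => pre_eq_iff.1 h1 i (by omega)

namespace LC

variable {α β γ : Type*} {P P' : Set (ℕ → Bool)}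

theorem const (a : α) : LC (fun _ => a) P := fun _ _ => ⟨0, fun _ _ _ => rfl⟩

theorem mono {f : (ℕ → Bool) → α} (h : LC f P) (hP : P' ⊆ P) : LC f P' := fun x hx => by
  obtain ⟨k, hk⟩ := h x (hP hx)
  exact ⟨k, fun x' hx' => hk x' (hP hx')⟩

theorem map {f : (ℕ → Bool) → α} (h : LC f P) (g : α → β) : LC (fun x => g (f x)) P :=
  fun x hx => by
  obtain ⟨k, hk⟩ := h x hx
  exact ⟨k, fun x' hx' h' => congrArg g (hk x' hx' h')⟩

theorem map₂ {f : (ℕ → Bool) → α} {f' : (ℕ → Bool) → β} (h : LC f P) (h' : LC f' P)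
    (g : α → β → γ) : LC (fun x => g (f x) (f' x)) P := fun x hx => by
  obtain ⟨k, hk⟩ := h x hx
  obtain ⟨l, hl⟩ := h' x hx
  refine ⟨max k l, fun x' hx' h1 => ?_⟩
  beta_reduce
  rw [hk x' hx' (pre_eq_mono (le_max_left _ _) h1), hl x' hx' (pre_eq_mono (le_max_right _ _) h1)]

/-- Evaluation of a family at a locally constant argument. -/
theorem app {f : (ℕ → Bool) → α → β} {g : (ℕ → Bool) → α} (h : ∀ a, LC (fun x => f x a) P)
    (h' : LC g P) : LC (fun x => f x (g x)) P := fun x hx => by
  obtain ⟨k, hk⟩ := h (g x) x hx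
  obtain ⟨l, hl⟩ := h' x hx
  refine ⟨max k l, fun x' hx' h1 => ?_⟩
  beta_reduce
  rw [hl x' hx' (pre_eq_mono (le_max_right _ _) h1)]
  exact hk x' hx' (pre_eq_mono (le_max_left _ _) h1)

theorem congr {f g : (ℕ → Bool) → α} (h : LC f P) (hfg : ∀ x ∈ P, g x = f x) : LC g P :=
  fun x hx => by
  obtain ⟨k, hk⟩ := h x hx
  exact ⟨k, fun x' hx' h' => by rw [hfg _ hx', hfg _ hx, hk x' hx' h']⟩

theorem bit (n : ℕ) : LC (fun x => x n) P := fun x _ =>
  ⟨n + 1, fun _ _ h => pre_eq_iff.1 h n (Nat.lt_succ_self n)⟩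

/-- Locally constant families over a bounded range. -/
theorem unif {ι : Type*} {f : (ℕ → Bool) → ι → α} (h : ∀ a, LC (fun x => f x a) P) (s : Finset ι)
    {x : ℕ → Bool} (hx : x ∈ P) :
    ∃ k, ∀ x' ∈ P, pre x' k = pre x k → ∀ a ∈ s, f x' a = f x a := by
  choose k hk using fun a => h a x hx
  refine ⟨s.sup k, fun x' hx' h' a ha => ?_⟩
  exact hk a x' hx' (pre_eq_mono (Finset.le_sup ha) h')

theorem continuousOn {f : (ℕ → Bool) → ℕ → Bool} (h : ∀ n, LC (fun x => f x n) P) :
    ContinuousOn f P := by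
  refine continuousOn_pi.2 fun n => ?_
  intro x hx
  obtain ⟨k, hk⟩ := h n x hx
  refine (continuousWithinAt_const (b := f x n)).congr_of_eventuallyEq ?_ rfl
  have h1 : {x' : ℕ → Bool | pre x' k = pre x k} ∈ nhds x := by
    have h2 : IsOpen {x' : ℕ → Bool | pre x' k = pre x k} := by
      have h3 : {x' : ℕ → Bool | pre x' k = pre x k} = ⋂ i ∈ Finset.range k, {x' | x' i = x i} := by
        ext x'
        simp [pre_eq_iff]
      rw [h3]
      refine isOpen_biInter_finset fun i _ => ?_
      exact (isOpen_discrete ({x i} : Set Bool)).preimage (continuous_apply (A := fun _ : ℕ => Bool) i)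
    exact h2.mem_nhds rfl
  filter_upwards [mem_nhdsWithin_of_mem_nhds h1, self_mem_nhdsWithin] with x' h2 h3
  exact hk x' h3 h2

theorem of_continuousOn {f : (ℕ → Bool) → ℕ → Bool} (h : ContinuousOn f P) (n : ℕ) :
    LC (fun x => f x n) P := by
  intro x hx
  have h1 : ContinuousWithinAt (fun x => f x n) P x := continuousWithinAt_pi.1 (h x hx) n
  have h2 : (fun x => f x n) ⁻¹' {f x n} ∈ nhdsWithin x P :=
    h1 ((isOpen_discrete {f x n}).mem_nhds rfl)
  obtain ⟨u, hu, hxu, hu'⟩ := mem_nhdsWithin.1 h2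
  obtain ⟨I, v, hI, hv⟩ := isOpen_pi_iff.1 hu x hxu
  refine ⟨I.sup id + 1, fun x' hx' h' => ?_⟩
  refine hu' ⟨hv fun i hi => ?_, hx'⟩
  have h3 : i < I.sup id + 1 := Nat.lt_succ_of_le (Finset.le_sup (f := id) hi)
  rw [pre_eq_iff.1 h' i h3]
  exact (hI i hi).2

end LC

/-- The string formed by the first `k` even entries. -/
def evs (ρ : List Bool) (k : ℕ) : List Bool := (List.range k).map fun i => ρ.getD (2 * i) false

theorem primrec_evs : Primrec₂ evs := by
  unfold evs
  refine Primrec.list_map (Primrec.list_range.comp Primrec.snd) ?_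
  exact (Primrec.list_getD false).comp (Primrec.fst.comp Primrec.fst)
    (Primrec.nat_mul.comp (Primrec.const 2) Primrec.snd)

theorem evs_pre {x r : ℕ → Bool} {k s : ℕ} (h : 2 * k ≤ s) : evs (pre (join x r) s) k = pre x k := by
  refine List.ext_getElem (by simp [evs]) fun i h1 h2 => ?_
  have hi : i < k := by simpa using h2
  rw [getElem_pre]
  simp only [evs, List.getElem_map, List.getElem_range]
  rw [pre_getD _ _ _ _ (by omega), join_even]

theorem evs_append {ρ δ : List Bool} {k : ℕ} (h : 2 * k ≤ ρ.length) : evs (ρ ++ δ) k = evs ρ k := by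
  refine List.ext_getElem (by simp [evs]) fun i h1 h2 => ?_
  have hi : i < k := by simpa [evs] using h2
  simp only [evs, List.getElem_map, List.getElem_range]
  rw [List.getD_append _ _ _ _ (by omega)]

/-- A continuous map on a set is computable relative to some real. -/
theorem exists_code {D : Set (ℕ → Bool)} {Θ : (ℕ → Bool) → ℕ → Bool}
    (h : ∀ n, LC (fun x => Θ x n) D) : ∃ r : ℕ → Bool, ∀ x ∈ D, TLe (Θ x) (join x r) := by
  classical
  let R : List Bool × ℕ × Bool → Prop := fun a => ∀ x ∈ D, pre x a.1.length = a.1 → Θ x a.2.1 = a.2.2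
  refine ⟨fun m => decide (∃ a, encode a = m ∧ R a), fun x hx => ?_⟩
  rw [tLe_iff]
  refine ⟨fun a => ∃ k : ℕ, 2 * k ≤ a.1.length ∧
    a.1[2 * encode (evs a.1 k, a.2.1, a.2.2) + 1]? = some true, ?_, ?_, ?_⟩
  · refine S1.ex (S1.and (S1.of_prim ?_) (S1.of_prim ?_))
    · exact Primrec.nat_le.comp (Primrec.nat_mul.comp (Primrec.const 2) Primrec.snd)
        (Primrec.list_length.comp (Primrec.fst.comp Primrec.fst))
    · refine Primrec.eq.comp (Primrec.list_getElem?.comp (Primrec.fst.comp Primrec.fst)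
        (Primrec.succ.comp (Primrec.nat_mul.comp (Primrec.const 2) (Primrec.encode.comp ?_))))
        (Primrec.const _)
      exact (primrec_evs.comp (Primrec.fst.comp Primrec.fst) Primrec.snd).pair
        ((Primrec.fst.comp (Primrec.snd.comp Primrec.fst)).pair
          (Primrec.snd.comp (Primrec.snd.comp Primrec.fst)))
  · rintro σ τ n b ⟨δ, rfl⟩ ⟨k, h1, h2⟩
    simp only at h1 h2 ⊢
    refine ⟨k, by simp only [List.length_append]; omega, ?_⟩
    rw [evs_append h1]
    have h3 : 2 * encode (evs σ k, n, b) + 1 < σ.length := by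
      by_contra hc
      rw [List.getElem?_eq_none (by omega)] at h2
      cases h2
    rw [List.getElem?_append_left h3]
    exact h2
  · intro n b
    simp only [length_pre]
    constructor
    · intro hb
      obtain ⟨k, hk⟩ := h n x hx
      have hR : R (pre x k, n, b) := by
        intro x' hx' h1
        simp only [length_pre] at h1
        rw [← hb]
        exact hk x' hx' h1
      refine ⟨2 * k + 2 * encode (pre x k, n, b) + 2, k, by omega, ?_⟩
      rw [evs_pre (by omega), pre_getElem? _ _ _ (by omega), join_odd]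
      simp only [Option.some.injEq, decide_eq_true_eq]
      exact ⟨_, rfl, hR⟩
    · rintro ⟨s, k, h1, h2⟩
      rw [evs_pre h1] at h2
      have h3 : 2 * encode (pre x k, n, b) + 1 < s := by
        by_contra hc
        rw [pre_getElem?_none _ _ _ (by omega)] at h2
        cases h2
      rw [pre_getElem? _ _ _ h3, join_odd] at h2
      simp only [Option.some.injEq, decide_eq_true_eq] at h2
      obtain ⟨a, ha, hR⟩ := h2
      have h4 := encode_injective ha
      subst h4
      exact hR x hx (by simp)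

theorem join_cone (z : ℕ → ℕ → Bool) : ∃ w : ℕ → Bool, ∀ n, TLe (z n) w :=
  Pool.Agent.W885.TD.join_cone z

/-- Countably many continuous maps have a common code. -/
theorem exists_code_countable {ι : Type} [Countable ι] {D : ι → Set (ℕ → Bool)}
    {Θ : ι → (ℕ → Bool) → ℕ → Bool} (h : ∀ i n, LC (fun x => Θ i x n) (D i)) :
    ∃ r : ℕ → Bool, ∀ i, ∀ x ∈ D i, TLe (Θ i x) (join x r) := by
  rcases isEmpty_or_nonempty ι with hι | hι
  · exact ⟨fun _ => false, fun i => (hι.false i).elim⟩
  obtain ⟨e, he⟩ := exists_surjective_nat ι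
  choose r hr using fun i => exists_code (h i)
  obtain ⟨w, hw⟩ := join_cone fun n => r (e n)
  refine ⟨w, fun i x hx => ?_⟩
  obtain ⟨n, rfl⟩ := he i
  refine (hr _ x hx).trans (join_tLe (tLe_join_left _ _) ?_)
  exact (hw n).trans (tLe_join_right _ _)

end Pool.Agent.N620.WP
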