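import Pool.Agent.N620.WP.Cpx

set_option autoImplicit false

/-! Sets whose relation to all members of a cone can be decoded are Borel. -/

namespace Pool.Agent.N620.WP

open Pool.Agent.Helper227
open Encodable MeasureTheory
open Pool.Agent.Y588.PD (Fam RLe exists_fam)

variable (E : ℕ → List Bool → ℕ → Bool → Prop)

/-- The open sets of the functionals. -/
def UE (l m : ℕ) (b : Bool) : Set (ℕ → Bool) := {y | ∃ k, E l (pre y k) m b}

/-- The open sets of the columns of the functionals. -/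
def VE (e m : ℕ) (b : Bool) : Set (ℕ → Bool) := UE E e.unpair.1 (Nat.pair e.unpair.2 m) b

variable {E}

theorem pf_UE (hE : Fam E) : PF (UE E) where
  isOpen l m b := by
    rw [isOpen_iff_mem_nhds]
    rintro y ⟨k, hk⟩
    refine Filter.mem_of_superset ((isOpen_pre y k).mem_nhds rfl) fun y' hy' => ⟨k, ?_⟩
    rw [hy']
    exact hk
  disj l m y := by
    rintro ⟨k, hk⟩ ⟨k', hk'⟩
    have h1 := hE.mono l _ _ m _ (pre_prefix y (le_max_left k k')) hk
    have h2 := hE.mono l _ _ m _ (pre_prefix y (le_max_right k k')) hk'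
    have := hE.single l _ m _ _ h1 h2
    simp at this

theorem pf_VE (hE : Fam E) : PF (VE E) where
  isOpen _ _ _ := (pf_UE hE).isOpen _ _ _
  disj _ _ y := (pf_UE hE).disj _ _ y

/-- The functional `l` maps `y` to `x`. -/
def Cmp (E : ℕ → List Bool → ℕ → Bool → Prop) (l : ℕ) (y x : ℕ → Bool) : Prop :=
  ∀ m, y ∈ UE E l m (x m)

theorem Cmp.dm {l : ℕ} {y x : ℕ → Bool} (h : Cmp E l y x) : Dm (UE E) l y := fun m => ⟨_, h m⟩

theorem Cmp.psi (hE : Fam E) {l : ℕ} {y x : ℕ → Bool} (h : Cmp E l y x) : Psi (UE E) l y = x :=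
  funext fun m => (pf_UE hE).psi h.dm (h m)

/-- The sequence of reals as one real. -/
def J (x : Sq) : ℕ → Bool := fun n => x n.unpair.1 n.unpair.2

theorem continuous_J : Continuous J :=
  continuous_pi fun n => (continuous_apply (A := fun _ : ℕ => Bool) n.unpair.2).comp
    (continuous_apply (A := fun _ : ℕ => ℕ → Bool) n.unpair.1)

theorem tLe_J (x : Sq) (i : ℕ) : TLe (x i) (J x) := by
  have hf : Primrec fun m : ℕ => Nat.pair i m :=
    Primrec₂.natPair.comp (Primrec.const i) Primrec.id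
  exact tLe_of_computable hf.to_comp fun m => by simp [J]

theorem psi_col (hE : Fam E) {l : ℕ} {x' : ℕ → Bool} {x : Sq} (h : Cmp E l x' (J x)) (n : ℕ) :
    Psi (VE E) (Nat.pair l n) x' = x n := by
  have h1 : ∀ m, x' ∈ VE E (Nat.pair l n) m (x n m) := by
    intro m
    have h2 := h (Nat.pair n m)
    simp only [VE, Nat.unpair_pair]
    simpa [J] using h2
  exact funext fun m => (pf_VE hE).psi (fun m => ⟨_, h1 m⟩) (h1 m)

/-- The points whose relation to `A` is decoded correctly by a real equivalent by the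
functionals `j` and `l`. -/
def Bad (E : ℕ → List Bool → ℕ → Bool → Prop) (A : Set (ℕ → Bool)) (j l : ℕ) : Set Sq :=
  {x | ∃ x', Cmp E j (J x) x' ∧ Cmp E l x' (J x) ∧
    ∀ e, (Psi (VE E) e x' ∈ A ↔ G (VE E) e x' 0 = true)}

theorem gd_preimage {P H : Set (ℕ → Bool)} {f : (ℕ → Bool) → ℕ → Bool} (hP : IsGδ P)
    (hf : ∀ n, LC (fun y => f y n) P) (hH : IsGδ H) : IsGδ (P ∩ f ⁻¹' H) := by
  obtain ⟨O, hO, rfl⟩ := isGδ_iff_eq_iInter_nat.1 hH
  have hc := LC.continuousOn hf
  choose U hU hU' using fun n => continuousOn_iff'.1 hc (O n) (hO n)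
  have h1 : P ∩ f ⁻¹' (⋂ n, O n) = P ∩ ⋂ n, U n := by
    ext y
    simp only [Set.mem_inter_iff, Set.mem_preimage, Set.mem_iInter]
    refine and_congr_right fun hy => forall_congr' fun n => ?_
    have h2 := Set.ext_iff.1 (hU' n) y
    simp only [Set.mem_inter_iff, Set.mem_preimage, hy, and_true] at h2
    exact h2
  rw [h1]
  exact hP.inter (IsGδ.iInter_of_isOpen hU)

theorem gd_dm (hE : Fam E) (j : ℕ) : IsGδ {u | Dm (UE E) j u} := by
  have h1 : {u | Dm (UE E) j u} = ⋂ m : ℕ, ⋃ b : Bool, UE E j m b := by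
    ext u
    simp only [Dm, Set.mem_ofPred_eq, Set.mem_iInter, Set.mem_iUnion]
  rw [h1]
  exact IsGδ.iInter_of_isOpen fun m => isOpen_iUnion fun b => (pf_UE hE).isOpen j m b

theorem lc_psi {V : ℕ → ℕ → Bool → Set (ℕ → Bool)} (hV : PF V) (e n : ℕ) :
    LC (fun y => Psi V e y n) {y | Dm V e y} := by
  intro y hy
  have hb := hV.psi_mem hy n
  obtain ⟨ρ, -, h1, h2⟩ := isEmb_idt.exists_fc (hV.isOpen e n _) (mem_body_idt y) hb 0
  refine ⟨(idt ρ).length, fun y' hy' h3 => hV.psi hy' (h2 y' ?_)⟩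
  unfold Sub at h1 ⊢
  rw [h3, h1]

theorem exists_O (hE : Fam E) (j e : ℕ) (b : Bool) : ∃ O : ℕ → ℕ → Set Sq,
    (∀ a k, IsOpen (O a k)) ∧
    ∀ x, (Dm (UE E) j (J x) ∧ G (VE E) e (Psi (UE E) j (J x)) 0 = b) ↔ ∃ a, ∀ k, x ∈ O a k := by
  obtain ⟨H, hH, hH'⟩ := exists_gd (VE E) e b
  have h1 : ∀ a, IsGδ (J ⁻¹' ({u | Dm (UE E) j u} ∩ Psi (UE E) j ⁻¹' H a)) := fun a =>
    (gd_preimage (gd_dm hE j) (lc_psi (pf_UE hE) j) (hH a)).preimage continuous_J
  choose O hO hO' using fun a => isGδ_iff_eq_iInter_nat.1 (h1 a)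
  refine ⟨O, hO, fun x => ?_⟩
  constructor
  · rintro ⟨h2, h3⟩
    have h4 : Psi (UE E) j (J x) ∈ ⋃ a, H a := by
      rw [← hH']
      exact h3
    obtain ⟨a, ha⟩ := Set.mem_iUnion.1 h4
    refine ⟨a, fun k => ?_⟩
    have h5 : x ∈ J ⁻¹' ({u | Dm (UE E) j u} ∩ Psi (UE E) j ⁻¹' H a) := ⟨h2, ha⟩
    rw [hO' a] at h5
    exact Set.mem_iInter.1 h5 k
  · rintro ⟨a, ha⟩
    have h5 : x ∈ J ⁻¹' ({u | Dm (UE E) j u} ∩ Psi (UE E) j ⁻¹' H a) := by
      rw [hO' a]
      exact Set.mem_iInter.2 ha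
    have h4 : Psi (UE E) j (J x) ∈ ⋃ a, H a := Set.mem_iUnion.2 ⟨a, h5.2⟩
    rw [← hH'] at h4
    exact ⟨h5.1, h4⟩

theorem avd_bad (hE : Fam E) {A : Set (ℕ → Bool)} (hA : ¬ MeasurableSet A) :
    Avd fun s => Bad E A s.unpair.1 s.unpair.2 := by
  intro s n x
  simp only
  generalize s.unpair.1 = j
  generalize s.unpair.2 = l
  choose O hO hO' using fun b => exists_O hE j (Nat.pair l n) b
  have key : ∃ c : ℕ → Bool, (∃ b, c ∈ PP (O b) n x ∧ ¬ (c ∈ A ↔ b = true)) ∨
      ∃ b, c ∉ PP (O b) n x ∧ (c ∈ A ↔ b = true) := by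
    by_contra hcon
    push Not at hcon
    have h1 : ∀ c, c ∈ A ↔ c ∈ PP (O true) n x := by
      intro c
      have h2 := (hcon c).1 true
      have h3 := (hcon c).2 true
      simp only [iff_true] at h2 h3
      constructor
      · intro hc
        by_contra h4
        have h5 := h3 h4
        simp [hc] at h5
      · exact h2
    have h1' : ∀ c, c ∈ Aᶜ ↔ c ∈ PP (O false) n x := by
      intro c
      have h2 := (hcon c).1 false
      have h3 := (hcon c).2 false
      simp only [Bool.false_eq_true, iff_false] at h2 h3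
      rw [Set.mem_compl_iff]
      constructor
      · intro hc
        by_contra h4
        have h5 := h3 h4
        simp [hc] at h5
      · exact h2
    refine hA (AnalyticSet.measurableSet_of_compl ?_ ?_)
    · rw [Set.ext h1]
      exact analyticSet_PP (hO true) n x
    · rw [Set.ext h1']
      exact analyticSet_PP (hO false) n x
  obtain ⟨c, ⟨b, ⟨a, m, hm, x1, h1, h2, h3⟩, h4⟩ | ⟨b, h1, h4⟩⟩ := key
  · refine ⟨m, by omega, x1, h2, O b a, fun k => (h1 k).dd (hO b a k), ?_⟩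
    rintro y hy hyk ⟨x', h5, h6, h7⟩
    have h8 := (hO' b y).2 ⟨a, hyk⟩
    rw [h5.psi hE] at h8
    have h9 := h7 (Nat.pair l n)
    rw [psi_col hE h6, h8.2, hy n hm, h3] at h9
    exact h4 h9
  · refine ⟨n + 1, by omega, Function.update x n c, fun i hi => Function.update_of_ne (by omega) _ _,
      fun a => {y | ¬ ∀ k, y ∈ O b a k}, fun a => ?_, ?_⟩
    · intro m hm y hy
      have h5 : y ∉ WW (O b a) m := by
        intro h5
        refine h1 ⟨a, m, by omega, y, h5, fun i hi => ?_, ?_⟩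
        · rw [hy i (by omega), Function.update_of_ne (by omega)]
        · rw [hy n (by omega), Function.update_self]
      simp only [WW, Dns, Set.mem_ofPred_eq] at h5
      push Not at h5
      obtain ⟨k, m', hm', y', h6, h7⟩ := h5
      exact ⟨m', hm', y', h6, fun y'' h8 h9 => h7 y'' h8 (h9 k)⟩
    · rintro y hy hyk ⟨x', h5, h6, h7⟩
      have h8 : ¬ (Dm (UE E) j (J y) ∧ G (VE E) (Nat.pair l n) (Psi (UE E) j (J y)) 0 = b) := by
        rw [hO' b y]
        rintro ⟨a, ha⟩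
        exact hyk a ha
      have h9 := h7 (Nat.pair l n)
      rw [psi_col hE h6, hy n (by omega), Function.update_self, h4] at h9
      refine h8 ⟨h5.dm, ?_⟩
      rw [h5.psi hE]
      cases b
      · simpa using h9
      · simpa using h9

/-- Outside of the Borel sets there are, in every cone, reals whose relation to the set cannot be
decoded by any Turing equivalent real. -/
theorem not_decodable (hE : Fam E) (hE' : ∀ x y, TLe x y ↔ RLe E x y) {A : Set (ℕ → Bool)}
    (hA : ¬ MeasurableSet A) (z : ℕ → Bool) : ∃ X, TLe z X ∧ ¬ ∃ x', TLe x' X ∧ TLe X x' ∧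
      ∀ e, (Psi (VE E) e x' ∈ A ↔ G (VE E) e x' 0 = true) := by
  obtain ⟨y, h1, h2⟩ := exists_generic (avd_bad hE hA) 1 fun _ => z
  refine ⟨J y, ?_, ?_⟩
  · have h3 := tLe_J y 0
    rwa [h1 0 (by omega)] at h3
  · rintro ⟨x', h3, h4, h5⟩
    obtain ⟨j, hj⟩ := (hE' _ _).1 h3
    obtain ⟨l, hl⟩ := (hE' _ _).1 h4
    refine h2 (Nat.pair j l) ?_
    simp only [Nat.unpair_pair]
    exact ⟨x', hj, hl, h5⟩

end Pool.Agent.N620.WP
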