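import Pool.Agent.N620.WP.Ful

set_option autoImplicit false

/-! Consequences of positivity. -/

namespace Pool.Agent.N620.WP

open Pool.Agent.Helper227
open Encodable MeasureTheory
open Pool.Agent.Y588.PD (Fam RLe exists_fam)

variable {E : ℕ → List Bool → ℕ → Bool → Prop} {A : Set (ℕ → Bool)}

/-- The left inverse of an injective continuous function. -/
theorem exists_left_inverse {h : (ℕ → Bool) → ℕ → Bool} (hc : Continuous h)
    (hi : Function.Injective h) : ∃ f : (ℕ → Bool) → ℕ → Bool, Continuous f ∧ ∀ c, f (h c) = c := by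
  have hce : Topology.IsClosedEmbedding h := hc.isClosedEmbedding hi
  obtain ⟨ρ, h1, h2, h3⟩ := PiNat.exists_retraction_of_isClosed hce.isClosed_range
    ⟨_, Set.mem_range_self fun _ => false⟩
  have hmem : ∀ y, ρ y ∈ Set.range h := fun y => h2 ▸ Set.mem_range_self y
  let φ := hce.isEmbedding.toHomeomorph
  refine ⟨fun y => φ.symm ⟨ρ y, hmem y⟩, φ.symm.continuous.comp (h3.subtype_mk _), fun c => ?_⟩
  rw [Homeomorph.symm_apply_eq]
  exact Subtype.ext (h1 _ ⟨c, rfl⟩)

theorem continuous_join (u : ℕ → Bool) : Continuous fun c => join u c := by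
  rw [← continuousOn_univ]
  refine LC.continuousOn fun n x _ => ?_
  rcases Nat.even_or_odd' n with ⟨k, rfl | rfl⟩
  · exact ⟨0, fun x' _ _ => by beta_reduce; rw [join_even, join_even]⟩
  · refine ⟨k + 1, fun x' _ h => ?_⟩
    beta_reduce
    rw [join_odd, join_odd]
    exact pre_eq_iff.1 h k (by omega)

theorem continuous_evn : Continuous evn :=
  continuous_pi fun k => continuous_apply (A := fun _ : ℕ => Bool) (2 * k)

theorem continuous_odd : Continuous odd' :=
  continuous_pi fun k => continuous_apply (A := fun _ : ℕ => Bool) (2 * k + 1)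

theorem evn_join' (x y : ℕ → Bool) : evn (join x y) = x := funext fun k => join_even x y k

theorem odd_join' (x y : ℕ → Bool) : odd' (join x y) = y := funext fun k => join_odd x y k

/-- A positive set can be mapped continuously onto the Cantor space. -/
theorem Pos.surj (h : Pos A) : ∃ f : (ℕ → Bool) → ℕ → Bool, Continuous f ∧
    ∀ u, ∃ a ∈ A, f a = u := by
  obtain ⟨h, h1, h2, h3⟩ := h
  obtain ⟨f, h4, h5⟩ := exists_left_inverse h1 h2
  refine ⟨fun y => evn (f y), continuous_evn.comp h4, fun u => ?_⟩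
  obtain ⟨c, hc⟩ := h3 (fun c => join u c) (continuous_join u) fun c c' hcc => by
    have := congrArg odd' hcc
    simpa [odd_join'] using this
  refine ⟨_, hc, ?_⟩
  beta_reduce
  rw [h5, evn_join']

/-- The family consisting of one continuous function. -/
def VF (f : (ℕ → Bool) → ℕ → Bool) (_ m : ℕ) (b : Bool) : Set (ℕ → Bool) := {y | f y m = b}

theorem pf_VF {f : (ℕ → Bool) → ℕ → Bool} (hf : Continuous f) : PF (VF f) where
  isOpen _ m b :=
    (isOpen_discrete ({b} : Set Bool)).preimage
      ((continuous_apply (A := fun _ : ℕ => Bool) m).comp hf)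
  disj _ _ y h h' := by
    simp only [VF, Set.mem_ofPred_eq] at h h'
    rw [h] at h'
    cases h'

theorem psi_VF {f : (ℕ → Bool) → ℕ → Bool} (hf : Continuous f) (y : ℕ → Bool) :
    Psi (VF f) 0 y = f y :=
  funext fun m => (pf_VF hf).psi (e := 0) (fun m => ⟨f y m, rfl⟩) rfl

/-- A continuous function is constant or injective on a Cantor set. -/
theorem const_or_injective {f : (ℕ → Bool) → ℕ → Bool} (hf : Continuous f) :
    ∃ k : (ℕ → Bool) → ℕ → Bool, Continuous k ∧ Function.Injective k ∧
      ((∃ v, ∀ c, f (k c) = v) ∨ Function.Injective fun c => f (k c)) := by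
  have hs : IsEmb (OpE (VF f) 0 idt) := isEmb_idt.opE 0
  refine ⟨pt (OpE (VF f) 0 idt), continuous_pt _, pt_injective hs, ?_⟩
  rcases (pf_VF hf).dichotomy isEmb_idt 0 with ⟨v, hv⟩ | ⟨hinj, -⟩
  · refine Or.inl ⟨v, fun c => ?_⟩
    rw [← psi_VF hf]
    exact hv _ (hs.pt_mem c)
  · refine Or.inr fun c c' hcc => pt_injective hs (hinj (hs.pt_mem c) (hs.pt_mem c') ?_)
    rw [psi_VF hf, psi_VF hf]
    exact hcc

/-- Relations with countable sections. -/
theorem Pos.relation {R : (ℕ → Bool) → (ℕ → Bool) → Prop}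
    (h : Pos {a | R (evn a) (odd' a)}) (hR : ∀ x, {y | R x y}.Countable) :
    ∃ p q : (ℕ → Bool) → ℕ → Bool, Continuous p ∧ Function.Injective p ∧ Continuous q ∧
      ∀ k : (ℕ → Bool) → ℕ → Bool, Continuous k → Function.Injective k →
        ∃ c, R (p (k c)) (q (k c)) := by
  obtain ⟨h, h1, h2, h3⟩ := h
  obtain ⟨k, h4, h5, ⟨v, hv⟩ | h6⟩ := const_or_injective (continuous_evn.comp h1)
  · exfalso
    have hC : {c | R v (odd' (h (k c)))}.Countable := by
      refine (hR v).preimage_of_injOn (f := fun c => odd' (h (k c))) fun c _ c' _ hcc => ?_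
      refine h5 (h2 ?_)
      have h7 := hv c
      have h8 := hv c'
      simp only [Function.comp] at h7 h8 hcc
      rw [← join_evn_odd (h (k c)), ← join_evn_odd (h (k c')), h7, h8, hcc]
    obtain ⟨g, h7, h8, h9⟩ := exists_avoid hC
    obtain ⟨c, hc⟩ := h3 (fun c => k (g c)) (h4.comp h7) (h5.comp h8)
    refine h9 c ?_
    have h10 := hv (g c)
    simp only [Function.comp] at h10
    rw [← h10]
    exact hc
  · refine ⟨fun c => evn (h (k c)), fun c => odd' (h (k c)), continuous_evn.comp (h1.comp h4), h6,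
      continuous_odd.comp (h1.comp h4), fun l hl hl' => ?_⟩
    exact h3 (fun c => k (l c)) (h4.comp hl) (h5.comp hl')

end Pool.Agent.N620.WP
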