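import Pool.Agent.N620.WP.Gnr

set_option autoImplicit false

/-! Complexity of density statements. -/

namespace Pool.Agent.N620.WP

open Pool.Agent.Helper227
open Encodable MeasureTheory

/-- Sequences of points. -/
abbrev Sq := ℕ → ℕ → Bool

/-- The open set `O` is dense above the condition `(m, x)`. -/
def Dns (O : Set Sq) (m : ℕ) (x : Sq) : Prop :=
  ∀ m' ≥ m, ∀ x', Ag m x x' → ∃ x'', Ag m' x' x'' ∧ x'' ∈ O

/-- The saturation of a set. -/
def Sat (m : ℕ) (C : Set Sq) : Set Sq := {x | ∃ x', Ag m x x' ∧ x' ∈ C}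

theorem isOpen_sat {O : Set Sq} (hO : IsOpen O) (m : ℕ) : IsOpen (Sat m O) := by
  rw [isOpen_iff_mem_nhds]
  rintro x ⟨x', h1, h2⟩
  let s : Sq → Sq := fun w i => if i < m then w i else x' i
  have hs : Continuous s := by
    refine continuous_pi fun i => ?_
    by_cases hi : i < m
    · simp only [s, hi, if_true]
      exact continuous_apply i
    · simp only [s, hi, if_false]
      exact continuous_const
  have hsx : s x = x' := by
    funext i
    by_cases hi : i < m
    · simp only [s, hi, if_true]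
      exact (h1 i hi).symm
    · simp only [s, hi, if_false]
  refine Filter.mem_of_superset ((hO.preimage hs).mem_nhds (by rw [Set.mem_preimage, hsx]; exact h2))
    fun w hw => ⟨s w, fun i hi => ?_, hw⟩
  simp only [s, hi, if_true]

theorem isClosed_sat {C : Set Sq} (hC : IsClosed C) (m : ℕ) : IsClosed (Sat m C) := by
  let p : Sq → Sq := fun w i => if i < m then w i else fun _ => false
  have hp : Continuous p := by
    refine continuous_pi fun i => ?_
    by_cases hi : i < m
    · simp only [p, hi, if_true]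
      exact continuous_apply i
    · simp only [p, hi, if_false]
      exact continuous_const
  have h1 : Sat m C = p ⁻¹' (p '' C) := by
    ext x
    constructor
    · rintro ⟨x', h1, h2⟩
      refine ⟨x', h2, ?_⟩
      funext i
      by_cases hi : i < m
      · simp only [p, hi, if_true]
        exact h1 i hi
      · simp only [p, hi, if_false]
    · rintro ⟨x', h1, h2⟩
      refine ⟨x', fun i hi => ?_, h1⟩
      have h3 := congrFun h2 i
      simp only [p, hi, if_true] at h3
      exact h3
  rw [h1]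
  exact ((hC.isCompact.image hp).isClosed).preimage hp

theorem measurableSet_dns {O : Set Sq} (hO : IsOpen O) (m : ℕ) : MeasurableSet {x | Dns O m x} := by
  have h1 : {x | Dns O m x} = ⋂ (m' : ℕ) (_ : m' ≥ m), (Sat m (Sat m' O)ᶜ)ᶜ := by
    ext x
    simp only [Dns, Sat, Set.mem_ofPred_eq, Set.mem_iInter, Set.mem_compl_iff]
    push Not
    rfl
  rw [h1]
  refine MeasurableSet.iInter fun m' => MeasurableSet.iInter fun _ => ?_
  exact (isClosed_sat (isOpen_sat hO m').isClosed_compl m).measurableSet.compl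

/-- All open sets `O k` are dense above the condition `(m, x)`. -/
def WW (O : ℕ → Set Sq) (m : ℕ) : Set Sq := {x | ∀ k, Dns (O k) m x}

theorem measurableSet_WW {O : ℕ → Set Sq} (hO : ∀ k, IsOpen (O k)) (m : ℕ) :
    MeasurableSet (WW O m) := by
  have h1 : WW O m = ⋂ k, {x | Dns (O k) m x} := by
    ext x
    simp [WW]
  rw [h1]
  exact MeasurableSet.iInter fun k => measurableSet_dns (hO k) m

theorem isClosed_ag (n : ℕ) (x : Sq) : IsClosed {y : Sq | Ag n x y} := by
  have h1 : {y : Sq | Ag n x y} = ⋂ (i : ℕ) (_ : i < n), {y | y i = x i} := by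
    ext y
    simp [Ag]
  rw [h1]
  exact isClosed_iInter fun i => isClosed_iInter fun _ =>
    isClosed_eq (continuous_apply i) continuous_const

/-- The points `c` for which some condition above `(n, x)` with `n`-th entry `c` forces the
membership in one of the countably many `Gδ` sets. -/
def PP (O : ℕ → ℕ → Set Sq) (n : ℕ) (x : Sq) : Set (ℕ → Bool) :=
  {c | ∃ a, ∃ m > n, ∃ y ∈ WW (O a) m, Ag n x y ∧ y n = c}

theorem analyticSet_PP {O : ℕ → ℕ → Set Sq} (hO : ∀ a k, IsOpen (O a k)) (n : ℕ) (x : Sq) :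
    AnalyticSet (PP O n x) := by
  have h1 : PP O n x = ⋃ (a : ℕ) (m : {m : ℕ // m > n}),
      (fun y : Sq => y n) '' (WW (O a) m.1 ∩ {y | Ag n x y}) := by
    ext c
    simp only [PP, Set.mem_ofPred_eq, Set.mem_iUnion, Set.mem_image, Set.mem_inter_iff]
    refine exists_congr fun a => ⟨?_, ?_⟩
    · rintro ⟨m, hm, y, h1, h2, h3⟩
      exact ⟨⟨m, hm⟩, y, ⟨h1, h2⟩, h3⟩
    · rintro ⟨⟨m, hm⟩, y, ⟨h1, h2⟩, h3⟩
      exact ⟨m, hm, y, h1, h2, h3⟩
  rw [h1]
  refine AnalyticSet.iUnion fun a => AnalyticSet.iUnion fun m => ?_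
  exact MeasurableSet.analyticSet_image
    ((measurableSet_WW (hO a) m).inter (isClosed_ag n x).measurableSet) (measurable_pi_apply n)

/-- Density of an open set, for conditions. -/
theorem Dns.dd {O : Set Sq} (hO : IsOpen O) {m : ℕ} {x : Sq} (h : Dns O m x) : Dd O m x := by
  intro m' hm' y hy
  obtain ⟨y', h1, h2⟩ := h m' hm' y hy
  obtain ⟨I, v, hI, hv⟩ := isOpen_pi_iff.1 hO y' h2
  refine ⟨max m' (I.sup id + 1), le_max_left _ _, y', h1, fun y'' hy'' => hv fun i hi => ?_⟩
  have h3 : i < I.sup id + 1 := Nat.lt_succ_of_le (Finset.le_sup (f := id) hi)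
  rw [hy'' i (lt_of_lt_of_le h3 (le_max_right _ _))]
  exact (hI i hi).2

end Pool.Agent.N620.WP
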