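import Pool.Agent.N620.WP.Op

set_option autoImplicit false

/-! The decoding of the sequence of coded reals, which is piecewise continuous on `Gδ` sets. -/

namespace Pool.Agent.N620.WP

open Pool.Agent.Helper227
open Encodable

namespace LC

variable {α : Type*} {P : Set (ℕ → Bool)}

theorem exists_open {f : (ℕ → Bool) → α} (h : LC f P) (S : Set α) :
    ∃ O : Set (ℕ → Bool), IsOpen O ∧ ∀ y ∈ P, (f y ∈ S ↔ y ∈ O) := by
  choose k hk using h
  refine ⟨⋃ (x : ℕ → Bool) (hx : x ∈ P) (_ : f x ∈ S), {x' | pre x' (k x hx) = pre x (k x hx)},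
    isOpen_iUnion fun x => isOpen_iUnion fun hx => isOpen_iUnion fun _ => isOpen_pre _ _,
    fun y hy => ?_⟩
  simp only [Set.mem_iUnion, Set.mem_ofPred_eq, exists_prop]
  constructor
  · intro h1
    exact ⟨y, hy, h1, rfl⟩
  · rintro ⟨x, hx, h1, h2⟩
    rw [hk x hx y hy h2]
    exact h1

theorem sub {σ : (ℕ → Bool) → List Bool} (h : LC σ P) : LC (fun y => Sub (σ y) y) P := by
  intro y hy
  obtain ⟨k, hk⟩ := h y hy
  refine ⟨max k (σ y).length, fun y' hy' h' => ?_⟩
  beta_reduce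
  rw [hk y' hy' (pre_eq_mono (le_max_left _ _) h')]
  unfold Sub
  rw [pre_eq_mono (le_max_right _ _) h']

theorem gd {q : (ℕ → Bool) → Prop} (h : LC q P) (hP : IsGδ P) : IsGδ (P ∩ {y | q y}) := by
  obtain ⟨O, hO, h1⟩ := h.exists_open {p | p}
  have h2 : P ∩ {y | q y} = P ∩ O := by
    ext y
    exact ⟨fun ⟨h3, h4⟩ => ⟨h3, (h1 y h3).1 h4⟩, fun ⟨h3, h4⟩ => ⟨h3, (h1 y h3).2 h4⟩⟩
  rw [h2]
  exact hP.inter hO.isGδ

theorem gd_ex {ι : Type*} {q : ι → (ℕ → Bool) → Prop} (h : ∀ i, LC (q i) P) (hP : IsGδ P) :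
    IsGδ (P ∩ {y | ∃ i, q i y}) := by
  choose O hO h1 using fun i => (h i).exists_open {p | p}
  have h2 : P ∩ {y | ∃ i, q i y} = P ∩ ⋃ i, O i := by
    ext y
    simp only [Set.mem_inter_iff, Set.mem_ofPred_eq, Set.mem_iUnion]
    exact and_congr_right fun hy => exists_congr fun i => h1 i y hy
  rw [h2]
  exact hP.inter (isOpen_iUnion hO).isGδ

end LC

theorem gd_all {ι : Type*} [Countable ι] {P : Set (ℕ → Bool)} {q : ι → (ℕ → Bool) → Prop}
    (h : ∀ i, IsGδ (P ∩ {y | q i y})) (hP : IsGδ P) : IsGδ (P ∩ {y | ∀ i, q i y}) := by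
  have h2 : P ∩ {y | ∀ i, q i y} = P ∩ ⋂ i, P ∩ {y | q i y} := by
    ext y
    simp only [Set.mem_inter_iff, Set.mem_ofPred_eq, Set.mem_iInter]
    exact and_congr_right fun hy => forall_congr' fun i => ⟨fun h => ⟨hy, h⟩, fun h => h.2⟩
  rw [h2]
  exact hP.inter (IsGδ.iInter h)

theorem gd_imp {P : Set (ℕ → Bool)} {q : (ℕ → Bool) → Prop} {r : Prop}
    (h : IsGδ (P ∩ {y | q y})) (hP : IsGδ P) : IsGδ (P ∩ {y | r → q y}) := by
  by_cases hr : r
  · simpa [hr] using h
  · simpa [hr] using hP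

/-- Families of tree embeddings which are continuous on each of countably many `Gδ` pieces. -/
def PC (f : (ℕ → Bool) → List Bool → List Bool) : Prop :=
  ∃ (ι : Type) (_ : Countable ι) (P : ι → Set (ℕ → Bool)), (∀ i, IsGδ (P i)) ∧
    (∀ y, ∃ i, y ∈ P i) ∧ ∀ i ρ, LC (fun y => f y ρ) (P i)

variable {f : (ℕ → Bool) → List Bool → List Bool} {P : Set (ℕ → Bool)}

theorem lc_brn (h : ∀ ρ, LC (fun y => f y ρ) P) (k : ℕ) : LC (fun y => brn (f y) y k) P := by
  classical
  induction k with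
  | zero => exact LC.const _
  | succ k ih =>
    have h1 : LC (fun y => f y (true :: brn (f y) y k)) P := LC.app h (ih.map fun l => true :: l)
    have h2 : LC (fun y => decide (Sub (f y (true :: brn (f y) y k)) y)) P :=
      h1.sub.map fun p => decide p
    exact h2.map₂ ih fun b l => b :: l

theorem lc_inv (h : ∀ ρ, LC (fun y => f y ρ) P) (k : ℕ) : LC (fun y => inv (f y) y k) P := by
  classical
  have h1 : LC (fun y => f y (true :: brn (f y) y k)) P :=
    LC.app h ((lc_brn h k).map fun l => true :: l)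
  exact h1.sub.map fun p => decide p

theorem lc_wv {g : (ℕ → Bool) → ℕ → Bool} (h : ∀ k, LC (fun y => g y k) P) (ρ : List Bool) :
    LC (fun y => wv (g y) ρ) P := by
  induction ρ with
  | nil => exact LC.const _
  | cons b ρ ih => exact (h ρ.length).map₂ ih fun c l => b :: c :: l

theorem lc_int {g : (ℕ → Bool) → ℕ → Bool} (h : ∀ ρ, LC (fun y => f y ρ) P)
    (hg : ∀ k, LC (fun y => g y k) P) (ρ : List Bool) : LC (fun y => Int' (g y) (f y) ρ) P :=
  show LC (fun y => f y (wv (g y) ρ)) P from LC.app h (lc_wv hg ρ)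

theorem lc_val {Q : ℕ → List Bool → List Bool → Prop} (h : ∀ ρ, LC (fun y => f y ρ) P)
    (α : List Bool) (m : ℕ) (p : List Bool × List Bool) : LC (fun y => Val Q (f y) α m p) P :=
  (h p.1).map₂ (h p.2) fun σ τ => α <:+ p.1 ∧ α <:+ p.2 ∧ IncS p.1 p.2 ∧ Q m σ τ

theorem gd_fail {Q : ℕ → List Bool → List Bool → Prop} (h : ∀ ρ, LC (fun y => f y ρ) P)
    (hP : IsGδ P) (κ : List Bool × ℕ) : IsGδ (P ∩ {y | Fail Q (f y) κ}) :=
  gd_all (q := fun p y => ¬ Val Q (f y) κ.1 κ.2 p)
    (fun p => ((lc_val h κ.1 κ.2 p).map fun q => ¬ q).gd hP) hP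

theorem gd_not_fail {Q : ℕ → List Bool → List Bool → Prop} (h : ∀ ρ, LC (fun y => f y ρ) P)
    (hP : IsGδ P) (κ : List Bool × ℕ) : IsGδ (P ∩ {y | ¬ Fail Q (f y) κ}) := by
  have h1 := LC.gd_ex (q := fun p y => Val Q (f y) κ.1 κ.2 p) (fun p => lc_val h κ.1 κ.2 p) hP
  convert h1 using 3
  simp only [Fail]
  push Not
  rfl

theorem PC.op (Q : ℕ → List Bool → List Bool → Prop) (h : PC f) : PC fun y => Op Q (f y) := by
  obtain ⟨ι, hι, P, hP, hcov, hlc⟩ := h
  let R : Option (List Bool × ℕ) → (ℕ → Bool) → Prop := fun o y => match o with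
    | none => ∀ κ, ¬ Fail Q (f y) κ
    | some κ => Fail Q (f y) κ ∧ ∀ κ', encode κ' < encode κ → ¬ Fail Q (f y) κ'
  refine ⟨ι × Option (List Bool × ℕ), inferInstance, fun a => P a.1 ∩ {y | R a.2 y}, ?_, ?_, ?_⟩
  · rintro ⟨i, o⟩
    cases o with
    | none =>
      exact gd_all (q := fun κ y => ¬ Fail Q (f y) κ)
        (fun κ => gd_not_fail (hlc i) (hP i) κ) (hP i)
    | some κ =>
      have h1 := gd_fail (Q := Q) (hlc i) (hP i) κ
      have h2 := gd_all (q := fun κ' y => encode κ' < encode κ → ¬ Fail Q (f y) κ')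
        (fun κ' => gd_imp (gd_not_fail (hlc i) (hP i) κ') (hP i)) (hP i)
      have h3 := h1.inter h2
      convert h3 using 1
      ext y
      simp only [R, Set.mem_inter_iff, Set.mem_ofPred_eq]
      tauto
  · intro y
    obtain ⟨i, hi⟩ := hcov y
    by_cases h : ∃ κ, Fail Q (f y) κ
    · obtain ⟨h1, h2⟩ := sel_spec' h
      refine ⟨(i, some (sel (Fail Q (f y)))), hi, h1, fun κ' h3 h4 => ?_⟩
      have := h2 κ' h4
      omega
    · push Not at h
      exact ⟨(i, none), hi, h⟩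
  · rintro ⟨i, o⟩ ρ
    cases o with
    | none =>
      have hlc' : ∀ ρ, LC (fun y => f y ρ) (P i ∩ {y | R none y}) := fun ρ =>
        (hlc i ρ).mono Set.inter_subset_left
      have hsp : ∀ ρ, LC (fun y => sp Q (f y) ρ) (P i ∩ {y | R none y}) := by
        intro ρ
        induction ρ with
        | nil => exact LC.const _
        | cons b ρ ih =>
          have h1 : LC (fun y => sel (Val Q (f y) (sp Q (f y) ρ) ρ.length))
              (P i ∩ {y | R none y}) := by
            refine LC.sel (p := fun y a => Val Q (f y) (sp Q (f y) ρ) ρ.length a) (fun a => ?_)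
              (fun y hy => ?_)
            · exact LC.app (f := fun y α => Val Q (f y) α ρ.length a)
                (fun α => lc_val hlc' α ρ.length a) ih
            · have h2 := hy.2 (sp Q (f y) ρ, ρ.length)
              unfold Fail at h2
              push Not at h2
              exact h2
          exact h1.map fun p => if b then p.2 else p.1
      refine (LC.app hlc' (hsp ρ)).congr fun y hy => ?_
      beta_reduce
      rw [op_nofail hy.2]
    | some κ =>
      refine ((hlc i (ρ ++ κ.1)).mono Set.inter_subset_left).congr fun y hy => ?_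
      have h1 : sel (Fail Q (f y)) = κ := sel_eq hy.2.1 fun κ' h => hy.2.2 κ' h
      beta_reduce
      rw [op_fail ⟨κ, hy.2.1⟩, h1]

section dec

variable (V : ℕ → ℕ → Bool → Set (ℕ → Bool))

/-- The decoded embedding number `n`. -/
noncomputable def T : ℕ → (ℕ → Bool) → List Bool → List Bool
  | 0, y => Int' (evn y) idt
  | n + 1, y => Int' (evn (inv (OpE V n (T n y)) y)) (OpE V n (T n y))

/-- The decoded real number `n + 1`. -/
noncomputable def G (n : ℕ) (y : ℕ → Bool) : ℕ → Bool := evn (inv (OpE V n (T V n y)) y)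

theorem T_succ (n : ℕ) (y : ℕ → Bool) : T V (n + 1) y = Int' (G V n y) (OpE V n (T V n y)) := rfl

theorem pc_T (n : ℕ) : PC (T V n) := by
  induction n with
  | zero =>
    refine ⟨Unit, inferInstance, fun _ => Set.univ, fun _ => IsGδ.univ, fun _ => ⟨(), trivial⟩,
      fun _ ρ => ?_⟩
    exact lc_int (f := fun _ => idt) (fun _ => LC.const _) (fun k => LC.bit (2 * k)) ρ
  | succ n ih =>
    obtain ⟨ι, hι, P, hP, hcov, hlc⟩ := (ih.op (QA V n)).op (QB V n)
    exact ⟨ι, hι, P, hP, hcov, fun i ρ => lc_int (hlc i) (fun k => lc_inv (hlc i) (2 * k)) ρ⟩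

theorem pc_G (n : ℕ) : ∃ (ι : Type) (_ : Countable ι) (P : ι → Set (ℕ → Bool)),
    (∀ i, IsGδ (P i)) ∧ (∀ y, ∃ i, y ∈ P i) ∧ ∀ i k, LC (fun y => G V n y k) (P i) := by
  obtain ⟨ι, hι, P, hP, hcov, hlc⟩ := ((pc_T V n).op (QA V n)).op (QB V n)
  exact ⟨ι, hι, P, hP, hcov, fun i k => lc_inv (hlc i) (2 * k)⟩

/-- The decoded bit number `n` is given by countable unions of `Gδ` sets. -/
theorem exists_gd (n : ℕ) (b : Bool) : ∃ H : ℕ → Set (ℕ → Bool), (∀ a, IsGδ (H a)) ∧
    {y | G V n y 0 = b} = ⋃ a, H a := by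
  obtain ⟨ι, hι, P, hP, hcov, hlc⟩ := pc_G V n
  have hne : Nonempty ι := by
    obtain ⟨i, -⟩ := hcov fun _ => false
    exact ⟨i⟩
  obtain ⟨e, he⟩ := exists_surjective_nat ι
  refine ⟨fun a => P (e a) ∩ {y | G V n y 0 = b}, fun a => ?_, ?_⟩
  · exact ((hlc (e a) 0).map fun c => c = b).gd (hP _)
  · ext y
    simp only [Set.mem_ofPred_eq, Set.mem_iUnion, Set.mem_inter_iff]
    constructor
    · intro h
      obtain ⟨i, hi⟩ := hcov y
      obtain ⟨a, rfl⟩ := he i
      exact ⟨a, hi, h⟩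
    · rintro ⟨a, -, h⟩
      exact h

/-- There is a real relative to which all decoding maps are computable. -/
theorem exists_base : ∃ r : ℕ → Bool, ∀ n y, TLe (G V n y) (join y r) := by
  have h1 : ∀ n, ∃ r : ℕ → Bool, ∀ y, TLe (G V n y) (join y r) := by
    intro n
    obtain ⟨ι, hι, P, -, hcov, hlc⟩ := pc_G V n
    obtain ⟨r, hr⟩ := exists_code_countable (D := P) (Θ := fun _ => G V n) hlc
    refine ⟨r, fun y => ?_⟩
    obtain ⟨i, hi⟩ := hcov y
    exact hr i y hi
  choose r hr using h1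
  obtain ⟨w, hw⟩ := join_cone r
  refine ⟨w, fun n y => (hr n y).trans (join_tLe (tLe_join_left _ _) ?_)⟩
  exact (hw n).trans (tLe_join_right _ _)

end dec

end Pool.Agent.N620.WP
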