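import Pool.Agent.N620.WP.Cod

set_option autoImplicit false

/-! Tree embeddings. Nodes are finite binary sequences written backwards (the newest bit is the
head), the values are finite binary strings written forwards. -/

namespace Pool.Agent.N620.WP

open Pool.Agent.Helper227
open Encodable

/-- `σ` is an initial segment of `y`. -/
def Sub (σ : List Bool) (y : ℕ → Bool) : Prop := pre y σ.length = σ

theorem sub_pre (y : ℕ → Bool) (k : ℕ) : Sub (pre y k) y := by simp [Sub]

theorem sub_iff {σ : List Bool} {y : ℕ → Bool} : Sub σ y ↔ ∀ i (h : i < σ.length), y i = σ[i] := by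
  constructor
  · intro h i hi
    have h1 : (pre y σ.length)[i]? = σ[i]? := by rw [h]
    rw [pre_getElem? _ _ _ hi, List.getElem?_eq_getElem hi] at h1
    exact Option.some.inj h1
  · intro h
    refine List.ext_getElem (by simp) fun i h1 h2 => ?_
    rw [getElem_pre]
    exact h i h2

theorem Sub.of_prefix {σ τ : List Bool} {y : ℕ → Bool} (h : σ <+: τ) (h1 : Sub τ y) : Sub σ y := by
  obtain ⟨δ, rfl⟩ := h
  rw [sub_iff] at h1 ⊢
  intro i hi
  rw [h1 i (by simp only [List.length_append]; omega), List.getElem_append_left hi]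

theorem Sub.eq_pre {σ : List Bool} {y : ℕ → Bool} (h : Sub σ y) : σ = pre y σ.length := h.symm

theorem Sub.comparable {σ τ : List Bool} {y : ℕ → Bool} (h : Sub σ y) (h' : Sub τ y) :
    σ <+: τ ∨ τ <+: σ := by
  rw [h.eq_pre, h'.eq_pre]
  rcases le_total σ.length τ.length with h1 | h1
  · exact Or.inl (pre_prefix _ h1)
  · exact Or.inr (pre_prefix _ h1)

theorem exists_sub (σ : List Bool) : ∃ y, Sub σ y := by
  refine ⟨fun n => σ.getD n false, sub_iff.2 fun i hi => ?_⟩
  simp [List.getD, hi]

theorem isOpen_pre (x : ℕ → Bool) (k : ℕ) : IsOpen {x' : ℕ → Bool | pre x' k = pre x k} := by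
  have h3 : {x' : ℕ → Bool | pre x' k = pre x k} = ⋂ i ∈ Finset.range k, {x' | x' i = x i} := by
    ext x'
    simp [pre_eq_iff]
  rw [h3]
  refine isOpen_biInter_finset fun i _ => ?_
  exact (isOpen_discrete ({x i} : Set Bool)).preimage (continuous_apply (A := fun _ : ℕ => Bool) i)

theorem isOpen_sub (σ : List Bool) : IsOpen {y | Sub σ y} := by
  obtain ⟨x, hx⟩ := exists_sub σ
  have h1 := isOpen_pre x σ.length
  rw [hx] at h1
  exact h1

theorem isClosed_sub (σ : List Bool) : IsClosed {y | Sub σ y} := by
  have h : {y : ℕ → Bool | Sub σ y} = ⋂ (i : ℕ) (h : i < σ.length), {y | y i = σ[i]} := by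
    ext y
    simp [sub_iff]
  rw [h]
  refine isClosed_iInter fun i => isClosed_iInter fun hi => ?_
  exact (isClosed_discrete ({σ[i]} : Set Bool)).preimage
    (continuous_apply (A := fun _ : ℕ => Bool) i)

/-- Two incomparable strings. -/
def Inc (a b : List Bool) : Prop := ¬ a <+: b ∧ ¬ b <+: a

/-- Two incomparable nodes. -/
def IncS (a b : List Bool) : Prop := ¬ a <:+ b ∧ ¬ b <:+ a

theorem Inc.symm {a b : List Bool} (h : Inc a b) : Inc b a := ⟨h.2, h.1⟩

theorem IncS.symm {a b : List Bool} (h : IncS a b) : IncS b a := ⟨h.2, h.1⟩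

theorem Inc.ext {a b a' b' : List Bool} (h : Inc a b) (ha : a <+: a') (hb : b <+: b') :
    Inc a' b' := by
  constructor
  · intro h1
    rcases List.prefix_or_prefix_of_prefix (ha.trans h1) hb with h2 | h2
    · exact h.1 h2
    · exact h.2 h2
  · intro h1
    rcases List.prefix_or_prefix_of_prefix ha (hb.trans h1) with h2 | h2
    · exact h.1 h2
    · exact h.2 h2

theorem Inc.not_sub {a b : List Bool} (h : Inc a b) {y : ℕ → Bool} (ha : Sub a y) : ¬ Sub b y := by
  intro hb
  rcases ha.comparable hb with h1 | h1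
  · exact h.1 h1
  · exact h.2 h1

theorem incS_cons (γ : List Bool) : IncS (false :: γ) (true :: γ) := by
  constructor <;>
  · intro h
    have := h.eq_of_length (by simp)
    simp at this

/-- Incomparable nodes diverge. -/
theorem IncS.diverge {a b : List Bool} (h : IncS a b) :
    ∃ γ c, (c :: γ) <:+ a ∧ ((!c) :: γ) <:+ b := by
  induction a with
  | nil => exact absurd (List.nil_suffix) h.1
  | cons x a ih =>
    by_cases h1 : a <:+ b
    · obtain ⟨δ, rfl⟩ := h1
      rcases List.eq_nil_or_concat δ with rfl | ⟨δ', c, rfl⟩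
      · exact absurd (by simp) h.2
      · have h2 : c ≠ x := by
          rintro rfl
          exact h.1 ⟨δ', by simp⟩
        have h3 : c = !x := by
          revert h2
          cases c <;> cases x <;> simp
        refine ⟨a, x, List.suffix_rfl, δ', ?_⟩
        rw [h3]
        simp
    · by_cases h2 : b <:+ a
      · exact absurd (h2.trans (List.suffix_cons x a)) h.2
      · obtain ⟨γ, c, h3, h4⟩ := ih ⟨h1, h2⟩
        exact ⟨γ, c, h3.trans (List.suffix_cons x a), h4⟩

/-- Tree embeddings. -/
structure IsEmb (t : List Bool → List Bool) : Prop where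
  mono : ∀ ρ b, t ρ <+: t (b :: ρ)
  split : ∀ ρ, Inc (t (false :: ρ)) (t (true :: ρ))

theorem prefix_of_suffix {t : List Bool → List Bool} (h : ∀ ρ b, t ρ <+: t (b :: ρ))
    {ρ ρ' : List Bool} (hρ : ρ <:+ ρ') : t ρ <+: t ρ' := by
  obtain ⟨δ, rfl⟩ := hρ
  induction δ with
  | nil => exact List.prefix_rfl
  | cons b δ ih => exact ih.trans (h _ _)

namespace IsEmb

variable {t : List Bool → List Bool}

theorem le (h : IsEmb t) {ρ ρ' : List Bool} (hρ : ρ <:+ ρ') : t ρ <+: t ρ' :=
  prefix_of_suffix h.mono hρ

theorem split' (h : IsEmb t) (ρ : List Bool) (b : Bool) : Inc (t (b :: ρ)) (t ((!b) :: ρ)) := by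
  cases b
  · exact h.split ρ
  · exact (h.split ρ).symm

theorem inc (h : IsEmb t) {a b : List Bool} (hab : IncS a b) : Inc (t a) (t b) := by
  obtain ⟨γ, c, h1, h2⟩ := hab.diverge
  exact (h.split' γ c).ext (h.le h1) (h.le h2)

theorem len_lt (h : IsEmb t) (ρ : List Bool) (b : Bool) : (t ρ).length < (t (b :: ρ)).length := by
  by_contra hc
  have h1 := (h.mono ρ b).eq_of_length_le (by omega)
  exact (h.split' ρ b).1 (h1 ▸ h.mono ρ (!b))

theorem len_le (h : IsEmb t) (ρ : List Bool) : ρ.length ≤ (t ρ).length := by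
  induction ρ with
  | nil => simp
  | cons b ρ ih =>
    have := h.len_lt ρ b
    simp only [List.length_cons]
    omega

end IsEmb

/-- The closed set of all branches. -/
def body (t : List Bool → List Bool) : Set (ℕ → Bool) :=
  {y | ∀ k, ∃ ρ : List Bool, ρ.length = k ∧ Sub (t ρ) y}

theorem isClosed_body (t : List Bool → List Bool) : IsClosed (body t) := by
  have h : body t = ⋂ k : ℕ, ⋃ ρ ∈ {ρ : List Bool | ρ.length = k}, {y | Sub (t ρ) y} := by
    ext y
    simp [body]
  rw [h]
  exact isClosed_iInter fun k =>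
    (List.finite_length_eq Bool k).isClosed_biUnion fun ρ _ => isClosed_sub _

/-- The reversed initial segment. -/
def rp (c : ℕ → Bool) : ℕ → List Bool
  | 0 => []
  | k + 1 => c k :: rp c k

@[simp] theorem length_rp (c : ℕ → Bool) (k : ℕ) : (rp c k).length = k := by
  induction k with
  | zero => rfl
  | succ k ih => simp [rp, ih]

theorem rp_suffix (c : ℕ → Bool) {k l : ℕ} (h : k ≤ l) : rp c k <:+ rp c l := by
  induction l, h using Nat.le_induction with
  | base => exact List.suffix_rfl
  | succ l _ ih => exact ih.trans (List.suffix_cons _ _)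

open Classical in
/-- The node of level `k` on the branch through `y`. -/
noncomputable def brn (t : List Bool → List Bool) (y : ℕ → Bool) : ℕ → List Bool
  | 0 => []
  | k + 1 => decide (Sub (t (true :: brn t y k)) y) :: brn t y k

open Classical in
/-- The branch through `y`. -/
noncomputable def inv (t : List Bool → List Bool) (y : ℕ → Bool) (k : ℕ) : Bool :=
  decide (Sub (t (true :: brn t y k)) y)

theorem brn_eq (t : List Bool → List Bool) (y : ℕ → Bool) (k : ℕ) : brn t y k = rp (inv t y) k := by
  induction k with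
  | zero => rfl
  | succ k ih =>
    rw [rp, ← ih]
    rfl

theorem brn_succ (t : List Bool → List Bool) (y : ℕ → Bool) (k : ℕ) :
    brn t y (k + 1) = inv t y k :: brn t y k := rfl

@[simp] theorem length_brn (t : List Bool → List Bool) (y : ℕ → Bool) (k : ℕ) :
    (brn t y k).length = k := by rw [brn_eq]; simp

theorem IsEmb.eq_brn {t : List Bool → List Bool} (h : IsEmb t) {y : ℕ → Bool} {ρ : List Bool}
    (hρ : Sub (t ρ) y) : ρ = brn t y ρ.length := by
  induction ρ with
  | nil => rfl
  | cons b ρ ih =>
    have h1 := ih (hρ.of_prefix (h.mono ρ b))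
    rw [List.length_cons, brn_succ, ← h1]
    congr 1
    rw [inv, ← h1]
    cases b
    · have := (h.split ρ).not_sub hρ
      simp [this]
    · simp [hρ]

theorem IsEmb.mem_body {t : List Bool → List Bool} (h : IsEmb t) {y : ℕ → Bool} :
    y ∈ body t ↔ ∀ k, Sub (t (brn t y k)) y := by
  constructor
  · intro hy k
    obtain ⟨ρ, h1, h2⟩ := hy k
    have h3 := h.eq_brn h2
    rw [h1] at h3
    rwa [← h3]
  · intro hy k
    exact ⟨_, length_brn t y k, hy k⟩

/-- Substitution of nodes. -/
theorem IsEmb.body_comp {t s : List Bool → List Bool} (h : IsEmb t)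
    (hs : ∀ ρ, ρ.length ≤ (s ρ).length) : body (fun ρ => t (s ρ)) ⊆ body t := by
  intro y hy k
  obtain ⟨ρ, h1, h2⟩ := hy k
  have h3 := hs ρ
  refine ⟨(s ρ).drop ((s ρ).length - k), by rw [List.length_drop]; omega, ?_⟩
  exact h2.of_prefix (h.le (List.drop_suffix _ _))

/-- The point of the body with a given branch. -/
def pt (t : List Bool → List Bool) (c : ℕ → Bool) (i : ℕ) : Bool := (t (rp c (i + 1))).getD i false

theorem getElem_of_prefix {σ τ : List Bool} (h : σ <+: τ) {i : ℕ} (hi : i < σ.length)
    (hi' : i < τ.length) : σ[i] = τ[i] := by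
  obtain ⟨δ, rfl⟩ := h
  rw [List.getElem_append_left hi]

theorem IsEmb.sub_pt {t : List Bool → List Bool} (h : IsEmb t) (c : ℕ → Bool) (k : ℕ) :
    Sub (t (rp c k)) (pt t c) := by
  rw [sub_iff]
  intro i hi
  have h1 : i < (t (rp c (i + 1))).length := by
    have := h.len_le (rp c (i + 1))
    rw [length_rp] at this
    omega
  have h2 : pt t c i = (t (rp c (i + 1)))[i] := by
    rw [pt, List.getD_eq_getElem _ _ h1]
  rw [h2]
  rcases le_total k (i + 1) with h3 | h3
  · exact (getElem_of_prefix (h.le (rp_suffix c h3)) hi h1).symm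
  · exact getElem_of_prefix (h.le (rp_suffix c h3)) h1 hi

theorem IsEmb.pt_mem {t : List Bool → List Bool} (h : IsEmb t) (c : ℕ → Bool) :
    pt t c ∈ body t := fun k => ⟨rp c k, length_rp c k, h.sub_pt c k⟩

theorem rp_inj {c c' : ℕ → Bool} (h : ∀ k, rp c k = rp c' k) : c = c' := by
  funext k
  have h1 := h (k + 1)
  simp only [rp, List.cons.injEq] at h1
  exact h1.1

theorem IsEmb.inv_pt {t : List Bool → List Bool} (h : IsEmb t) (c : ℕ → Bool) :
    inv t (pt t c) = c := by
  refine rp_inj fun k => ?_
  rw [← brn_eq]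
  have h1 := h.eq_brn (h.sub_pt c k)
  rw [length_rp] at h1
  exact h1.symm

theorem IsEmb.pt_inv {t : List Bool → List Bool} (h : IsEmb t) {y : ℕ → Bool} (hy : y ∈ body t) :
    pt t (inv t y) = y := by
  funext i
  have h1 := h.mem_body.1 hy (i + 1)
  rw [brn_eq] at h1
  have h2 : i < (t (rp (inv t y) (i + 1))).length := by
    have := h.len_le (rp (inv t y) (i + 1))
    rw [length_rp] at this
    omega
  rw [pt, List.getD_eq_getElem _ _ h2]
  exact (sub_iff.1 h1 i h2).symm

theorem rp_congr {c c' : ℕ → Bool} {k : ℕ} (h : ∀ i < k, c i = c' i) : rp c k = rp c' k := by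
  induction k with
  | zero => rfl
  | succ k ih => rw [rp, rp, h k (Nat.lt_succ_self k), ih fun i hi => h i (by omega)]

theorem continuous_pt (t : List Bool → List Bool) : Continuous (pt t) := by
  rw [← continuousOn_univ]
  refine LC.continuousOn fun n x _ => ⟨n + 1, fun x' _ h => ?_⟩
  beta_reduce
  rw [pt, pt, rp_congr (pre_eq_iff.1 h)]

/-- Coding the real `g` into the branches: the even entries of the branch are those of `g`. -/
def wv (g : ℕ → Bool) : List Bool → List Bool
  | [] => []
  | b :: ρ => b :: g ρ.length :: wv g ρ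

@[simp] theorem length_wv (g : ℕ → Bool) (ρ : List Bool) : (wv g ρ).length = 2 * ρ.length := by
  induction ρ with
  | nil => rfl
  | cons b ρ ih => simp only [wv, List.length_cons, ih]; omega

theorem wv_suffix (g : ℕ → Bool) (ρ : List Bool) (b : Bool) : wv g ρ <:+ wv g (b :: ρ) :=
  ⟨[b, g ρ.length], rfl⟩

/-- The coding subtree. -/
def Int' (g : ℕ → Bool) (t : List Bool → List Bool) : List Bool → List Bool := fun ρ => t (wv g ρ)

theorem IsEmb.int {t : List Bool → List Bool} (h : IsEmb t) (g : ℕ → Bool) : IsEmb (Int' g t) where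
  mono ρ b := h.le (wv_suffix g ρ b)
  split _ := h.split _

theorem IsEmb.body_int {t : List Bool → List Bool} (h : IsEmb t) (g : ℕ → Bool) :
    body (Int' g t) ⊆ body t :=
  h.body_comp fun ρ => by rw [length_wv]; omega

theorem IsEmb.evn_inv {t : List Bool → List Bool} (h : IsEmb t) {g y : ℕ → Bool}
    (hy : y ∈ body (Int' g t)) : evn (inv t y) = g := by
  funext k
  obtain ⟨ρ, h1, h2⟩ := hy (k + 1)
  obtain ⟨b, ρ, rfl⟩ : ∃ b ρ', ρ = b :: ρ' := by
    cases ρ with
    | nil => simp at h1
    | cons b ρ => exact ⟨b, ρ, rfl⟩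
  simp only [List.length_cons, Nat.add_right_cancel_iff] at h1
  have h3 := h.eq_brn h2
  rw [length_wv, List.length_cons, h1, wv, show 2 * (k + 1) = 2 * k + 1 + 1 by ring, brn_succ,
    brn_succ, h1] at h3
  simp only [List.cons.injEq] at h3
  exact h3.2.1.symm

/-- The identity embedding. -/
def idt : List Bool → List Bool := List.reverse

theorem isEmb_idt : IsEmb idt where
  mono ρ b := by simp [idt]
  split ρ := by
    constructor <;>
    · intro h
      have := h.eq_of_length (by simp [idt])
      simp [idt] at this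

theorem mem_body_idt (y : ℕ → Bool) : y ∈ body idt := by
  intro k
  refine ⟨(pre y k).reverse, by simp, ?_⟩
  rw [idt, List.reverse_reverse]
  exact sub_pre y k

theorem inv_idt (y : ℕ → Bool) : inv idt y = y := by
  have h1 : ∀ k, rp y k = (pre y k).reverse := by
    intro k
    induction k with
    | zero => simp [rp, pre]
    | succ k ih => rw [rp, ih, pre_succ]; simp
  refine rp_inj fun k => ?_
  rw [← brn_eq]
  have h2 : Sub (idt (rp y k)) y := by
    rw [h1, idt, List.reverse_reverse]
    exact sub_pre y k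
  have h3 := isEmb_idt.eq_brn h2
  rw [length_rp] at h3
  exact h3.symm

end Pool.Agent.N620.WP
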