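import Pool.Agent.N620.WP.Pos

set_option autoImplicit false

/-! Full sets are Marczewski positive. -/

namespace Pool.Agent.N620.WP

open Pool.Agent.Helper227
open Encodable MeasureTheory
open Pool.Agent.Y588.PD (Fam RLe exists_fam)

variable {E : ℕ → List Bool → ℕ → Bool → Prop} {A : Set (ℕ → Bool)}

theorem pt_injective {t : List Bool → List Bool} (ht : IsEmb t) : Function.Injective (pt t) :=
  fun c c' h => by rw [← ht.inv_pt c, ← ht.inv_pt c', h]

theorem countable_below (hE : Fam E) (hE' : ∀ x y, TLe x y ↔ RLe E x y) (v : ℕ → Bool) :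
    {y | TLe y v}.Countable := by
  refine (Set.countable_range fun e : ℕ => Psi (UE E) e v).mono fun y hy => ?_
  obtain ⟨e, he⟩ := (hE' y v).1 hy
  exact ⟨e, Cmp.psi hE he⟩

/-- Taking care of one functional. -/
theorem exists_step (hE : Fam E) (hE' : ∀ x y, TLe x y ↔ RLe E x y) (hP : ¬ Pos A)
    (w : ℕ → Bool) (e : ℕ) {t : List Bool → List Bool} (ht : IsEmb t) :
    ∃ t', IsEmb t' ∧ body t' ⊆ body t ∧ ∀ y ∈ body t', Psi (UE E) e y ∈ A →
      ¬ TLe y (join (Psi (UE E) e y) w) := by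
  have hs : IsEmb (OpE (UE E) e t) := ht.opE e
  have hmem : ∀ c, pt (OpE (UE E) e t) c ∈ body (OpE (UE E) e t) := hs.pt_mem
  rcases (pf_UE hE).dichotomy ht e with ⟨v, hv⟩ | ⟨hinj, hlc⟩
  · have hC : {c | TLe (pt (OpE (UE E) e t) c) (join v w)}.Countable :=
      (countable_below hE hE' (join v w)).preimage_of_injOn (pt_injective hs).injOn
    obtain ⟨g, h1, h2, h3⟩ := exists_avoid hC
    obtain ⟨t', h4, h5⟩ := exists_emb (g := fun c => pt (OpE (UE E) e t) (g c))
      ((continuous_pt _).comp h1) ((pt_injective hs).comp h2)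
    refine ⟨t', h4, fun y hy => ?_, fun y hy _ => ?_⟩
    · obtain ⟨c, rfl⟩ := h5 hy
      exact ht.body_opE e (hmem _)
    · obtain ⟨c, rfl⟩ := h5 hy
      beta_reduce
      rw [hv _ (hmem _)]
      exact h3 c
  · have hcont : Continuous fun c => Psi (UE E) e (pt (OpE (UE E) e t) c) := by
      have h1 := LC.continuousOn hlc
      exact h1.comp_continuous (continuous_pt _) hmem
    have hinj' : Function.Injective fun c => Psi (UE E) e (pt (OpE (UE E) e t) c) := by
      intro c c' h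
      exact pt_injective hs (hinj (hmem c) (hmem c') h)
    have hP' : ∃ k : (ℕ → Bool) → ℕ → Bool, Continuous k ∧ Function.Injective k ∧
        ∀ c, Psi (UE E) e (pt (OpE (UE E) e t) (k c)) ∉ A := by
      by_contra hcon
      refine hP ⟨_, hcont, hinj', fun k hk hk' => ?_⟩
      by_contra hc
      push Not at hc
      exact hcon ⟨k, hk, hk', hc⟩
    obtain ⟨k, h1, h2, h3⟩ := hP'
    obtain ⟨t', h4, h5⟩ := exists_emb (g := fun c => pt (OpE (UE E) e t) (k c))
      ((continuous_pt _).comp h1) ((pt_injective hs).comp h2)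
    refine ⟨t', h4, fun y hy => ?_, fun y hy hyA => ?_⟩
    · obtain ⟨c, rfl⟩ := h5 hy
      exact ht.body_opE e (hmem _)
    · obtain ⟨c, rfl⟩ := h5 hy
      exact absurd hyA (h3 c)

/-- Full sets are Marczewski positive. -/
theorem full_pos (hE : Fam E) (hE' : ∀ x y, TLe x y ↔ RLe E x y) (hF : Full A) : Pos A := by
  by_contra hP
  obtain ⟨w, hw⟩ := hF
  -- the sequence
  have hstep : ∀ (e : ℕ) (t : {t // IsEmb t}), ∃ t' : {t // IsEmb t}, body t'.1 ⊆ body t.1 ∧
      ∀ y ∈ body t'.1, Psi (UE E) e y ∈ A → ¬ TLe y (join (Psi (UE E) e y) w) := by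
    intro e t
    obtain ⟨t', h1, h2, h3⟩ := exists_step hE hE' hP w e t.2
    exact ⟨⟨t', h1⟩, h2, h3⟩
  choose N h1 h2 using hstep
  let s : ℕ → {t // IsEmb t} := fun n =>
    Nat.rec ⟨Int' w idt, isEmb_idt.int w⟩ (fun e t => N e t) n
  have hsub : ∀ n, body (s (n + 1)).1 ⊆ body (s n).1 := fun n => h1 n (s n)
  obtain ⟨y, hy⟩ := IsCompact.nonempty_iInter_of_sequence_nonempty_isCompact_isClosed
    (fun n => body (s n).1) hsub
    (fun n => ⟨_, (s n).2.pt_mem fun _ => false⟩) (isClosed_body _).isCompact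
    fun n => isClosed_body _
  rw [Set.mem_iInter] at hy
  have h0 : evn y = w := by
    have h1 := isEmb_idt.evn_inv (hy 0)
    rwa [inv_idt] at h1
  have hwy : TLe w y := h0 ▸ tLe_evn y
  obtain ⟨a, ha, h3, h4⟩ := hw y hwy
  obtain ⟨e, he⟩ := (hE' a y).1 ((tLe_join_left a w).trans h3)
  have h5 : Psi (UE E) e y = a := Cmp.psi hE he
  have h6 := h2 e (s e) y (hy (e + 1))
  rw [h5] at h6
  exact h6 ha h4

end Pool.Agent.N620.WP
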