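import Pool.Agent.N620.WP.Dec

set_option autoImplicit false

/-! The fusion argument. -/

namespace Pool.Agent.N620.WP

open Pool.Agent.Helper227
open Encodable

/-- No member of `A` computes high reals, relative to any parameter. -/
def Thin (A : Set (ℕ → Bool)) : Prop := ∀ w, ∃ z, ∀ a ∈ A, ¬ TLe z (join a w)

/-- The inverse of an injective continuous map on a closed set. -/
theorem exists_inverse_code {F : (ℕ → Bool) → ℕ → Bool} {K : Set (ℕ → Bool)} (hK : IsClosed K)
    (hF : ∀ n, LC (fun y => F y n) K) (hinj : Set.InjOn F K) :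
    ∃ r : ℕ → Bool, ∀ y ∈ K, TLe y (join (F y) r) := by
  have hc : ContinuousOn F K := LC.continuousOn hF
  have hleft : ∀ y ∈ K, Function.invFunOn F K (F y) = y := fun y hy =>
    hinj (Function.invFunOn_mem ⟨y, hy, rfl⟩) hy (Function.invFunOn_eq ⟨y, hy, rfl⟩)
  have hinv : ContinuousOn (Function.invFunOn F K) (F '' K) := by
    rw [continuousOn_iff_isClosed]
    intro C hC
    refine ⟨F '' (K ∩ C), ?_, ?_⟩
    · exact (((hK.inter hC).isCompact).image_of_continuousOn
        (hc.mono Set.inter_subset_left)).isClosed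
    · ext a
      constructor
      · rintro ⟨h1, y, hy, rfl⟩
        rw [Set.mem_preimage, hleft y hy] at h1
        exact ⟨⟨y, ⟨hy, h1⟩, rfl⟩, y, hy, rfl⟩
      · rintro ⟨⟨y, ⟨hy, h1⟩, rfl⟩, -⟩
        refine ⟨?_, y, hy, rfl⟩
        rw [Set.mem_preimage, hleft y hy]
        exact h1
  obtain ⟨r, hr⟩ := exists_code fun n => LC.of_continuousOn hinv n
  refine ⟨r, fun y hy => ?_⟩
  have h1 := hr (F y) ⟨y, hy, rfl⟩
  rwa [hleft y hy] at h1

/-- Shifting. -/
theorem tLe_tail (g : ℕ → Bool) : TLe (fun n => g (n + 1)) g :=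
  tLe_of_computable (f := fun n => n + 1) Primrec.succ.to_comp fun _ => rfl

theorem tLe_evn (y : ℕ → Bool) : TLe (evn y) y := by
  have h := tLe_join_left (evn y) (odd' y)
  rwa [join_evn_odd] at h

variable {V : ℕ → ℕ → Bool → Set (ℕ → Bool)} {A : Set (ℕ → Bool)}

/-- The coded real `g` takes care of the functional `e` below `t`. -/
def Good (V : ℕ → ℕ → Bool → Set (ℕ → Bool)) (A : Set (ℕ → Bool)) (e : ℕ)
    (t : List Bool → List Bool) (g : ℕ → Bool) : Prop :=
  ∀ y ∈ body (OpE V e t), TLe g y → (Psi V e y ∈ A ↔ g 0 = true)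

theorem exists_good (hV : PF V) (hA : Thin A) (e : ℕ) {t : List Bool → List Bool} (ht : IsEmb t) :
    ∃ g, Good V A e t g := by
  classical
  rcases hV.dichotomy ht e with ⟨v, hv⟩ | ⟨hinj, hlc⟩
  · refine ⟨fun _ => decide (v ∈ A), fun y hy _ => ?_⟩
    rw [hv y hy]
    simp
  · obtain ⟨r, hr⟩ := exists_inverse_code (isClosed_body _) hlc hinj
    obtain ⟨z, hz⟩ := hA r
    refine ⟨fun n => Nat.casesOn n false z, fun y hy hg => ⟨fun h1 => ?_, fun h1 => ?_⟩⟩
    · exfalso
      refine hz _ h1 (TLe.trans ?_ (hr y hy))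
      exact (tLe_tail (fun n => (Nat.casesOn n false z : Bool))).trans hg
    · exact absurd h1 (by simp)

/-- The sequence of thinner and thinner embeddings. -/
noncomputable def seq (V : ℕ → ℕ → Bool → Set (ℕ → Bool)) (A : Set (ℕ → Bool)) (z : ℕ → Bool) :
    ℕ → List Bool → List Bool
  | 0 => Int' z idt
  | n + 1 => Int' (Classical.epsilon (Good V A n (seq V A z n))) (OpE V n (seq V A z n))

theorem isEmb_seq (z : ℕ → Bool) (n : ℕ) : IsEmb (seq V A z n) := by
  induction n with
  | zero => exact isEmb_idt.int z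
  | succ n ih => exact (ih.opE n).int _

theorem body_seq_succ (z : ℕ → Bool) (n : ℕ) : body (seq V A z (n + 1)) ⊆ body (seq V A z n) :=
  (((isEmb_seq z n).opE n).body_int _).trans ((isEmb_seq z n).body_opE n)

theorem exists_branch (z : ℕ → Bool) : ∃ y, ∀ n, y ∈ body (seq V A z n) := by
  obtain ⟨y, hy⟩ := IsCompact.nonempty_iInter_of_sequence_nonempty_isCompact_isClosed
    (fun n => body (seq V A z n)) (body_seq_succ z)
    (fun n => ⟨_, (isEmb_seq z n).pt_mem fun _ => false⟩) (isClosed_body _).isCompact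
    fun n => isClosed_body _
  exact ⟨y, fun n => Set.mem_iInter.1 hy n⟩

theorem decode {z y : ℕ → Bool} (hy : ∀ n, y ∈ body (seq V A z n)) (n : ℕ) :
    T V n y = seq V A z n := by
  induction n with
  | zero =>
    have h1 := isEmb_idt.evn_inv (hy 0)
    rw [inv_idt] at h1
    rw [T, seq, h1]
  | succ n ih =>
    have h1 := ((isEmb_seq (V := V) (A := A) z n).opE (V := V) n).evn_inv (hy (n + 1))
    rw [T, ih, seq, h1]

/-- Every cone contains reals whose relation to the set `A` can be decoded. -/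
theorem fusion (hV : PF V) {r : ℕ → Bool} (hr : ∀ n y, TLe (G V n y) (join y r)) (hA : Thin A)
    (z : ℕ → Bool) : ∃ y, TLe z y ∧ ∀ e, (Psi V e y ∈ A ↔ G V e y 0 = true) := by
  obtain ⟨y, hy⟩ := exists_branch (V := V) (A := A) (join z r)
  have h0 : evn y = join z r := by
    have h1 := isEmb_idt.evn_inv (hy 0)
    rwa [inv_idt] at h1
  have h1 : TLe (join z r) y := h0 ▸ tLe_evn y
  refine ⟨y, (tLe_join_left z r).trans h1, fun e => ?_⟩
  have h2 : TLe (G V e y) y := (hr e y).trans (join_tLe (TLe.refl y) ((tLe_join_right z r).trans h1))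
  have h3 : G V e y = Classical.epsilon (Good V A e (seq V A (join z r) e)) := by
    rw [G, decode hy]
    exact ((isEmb_seq (V := V) (A := A) (join z r) e).opE (V := V) e).evn_inv (hy (e + 1))
  have h4 := Classical.epsilon_spec
    (exists_good hV hA e (isEmb_seq (V := V) (A := A) (join z r) e))
  have h5 : y ∈ body (OpE V e (seq V A (join z r) e)) :=
    ((isEmb_seq (V := V) (A := A) (join z r) e).opE (V := V) e).body_int _ (hy (e + 1))
  rw [← h3] at h4
  exact h4 y h5 h2

end Pool.Agent.N620.WP
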