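import Pool.Agent.N620.WP.Fus

set_option autoImplicit false

/-! Generic sequences of arbitrary objects. -/

namespace Pool.Agent.N620.WP

open Encodable

section

variable {X : Type*}

/-- `y` agrees with `x` below `n`. -/
def Ag (n : ℕ) (x y : ℕ → X) : Prop := ∀ i < n, y i = x i

theorem Ag.refl (n : ℕ) (x : ℕ → X) : Ag n x x := fun _ _ => rfl

theorem Ag.trans {n m : ℕ} {x y z : ℕ → X} (h : Ag n x y) (hnm : n ≤ m) (h' : Ag m y z) :
    Ag n x z := fun i hi => (h' i (by omega)).trans (h i hi)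

/-- The interior of `U` (for the product of the discrete topologies) is dense above the
condition `(n, x)`. -/
def Dd (U : Set (ℕ → X)) (n : ℕ) (x : ℕ → X) : Prop :=
  ∀ m ≥ n, ∀ y, Ag n x y → ∃ m' ≥ m, ∃ y', Ag m y y' ∧ ∀ y'', Ag m' y' y'' → y'' ∈ U

theorem Dd.mono {U : Set (ℕ → X)} {n n' : ℕ} {x x' : ℕ → X} (h : Dd U n x) (hn : n ≤ n')
    (hx : Ag n x x') : Dd U n' x' :=
  fun m hm y hy => h m (hn.trans hm) y (hx.trans hn hy)

theorem dd_univ (n : ℕ) (x : ℕ → X) : Dd Set.univ n x :=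
  fun m _ y _ => ⟨m, le_rfl, y, Ag.refl _ _, fun _ _ => trivial⟩

/-- States of the construction. -/
structure Sta (X : Type*) where
  n : ℕ
  x : ℕ → X
  F : ℕ → ℕ → Set (ℕ → X)

/-- The invariant. -/
def Sta.Inv (σ : Sta X) : Prop := ∀ i k, Dd (σ.F i k) σ.n σ.x

/-- One step of the construction. -/
def Stp (R : ℕ → Set (ℕ → X)) (s : ℕ) (σ τ : Sta X) : Prop :=
  σ.n < τ.n ∧ Ag σ.n σ.x τ.x ∧ (∀ i, i ≠ s → τ.F i = σ.F i) ∧
    (∀ y, Ag τ.n τ.x y → y ∈ τ.F s.unpair.1 s.unpair.2) ∧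
    (∀ y, Ag τ.n τ.x y → (∀ k, y ∈ τ.F s k) → y ∉ R s) ∧ τ.Inv

/-- The hypothesis on the sets to be avoided. -/
def Avd (R : ℕ → Set (ℕ → X)) : Prop := ∀ s n x, ∃ n' ≥ n, ∃ x', Ag n x x' ∧
  ∃ U : ℕ → Set (ℕ → X), (∀ k, Dd (U k) n' x') ∧ ∀ y, Ag n' x' y → (∀ k, y ∈ U k) → y ∉ R s

theorem exists_stp {R : ℕ → Set (ℕ → X)} (hR : Avd R) (s : ℕ) {σ : Sta X} (hσ : σ.Inv) :
    ∃ τ, Stp R s σ τ := by
  obtain ⟨n', hn', x', hx', U, hU, hU'⟩ := hR s σ.n σ.x
  let F' : ℕ → ℕ → Set (ℕ → X) := Function.update σ.F s U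
  have hF : ∀ i k, Dd (F' i k) n' x' := by
    intro i k
    by_cases hi : i = s
    · subst hi
      simp only [F', Function.update_self]
      exact hU k
    · simp only [F', Function.update_of_ne hi]
      exact (hσ i k).mono hn' hx'
  obtain ⟨m, hm, y, hy, hy'⟩ := hF s.unpair.1 s.unpair.2 (n' + 1) (by omega) x' (Ag.refl _ _)
  have hy1 : Ag n' x' y := fun i hi => hy i (by omega)
  refine ⟨⟨m, y, F'⟩, by simp only; omega, hx'.trans hn' hy1, fun i hi => ?_, hy', ?_, ?_⟩
  · simp only [F', Function.update_of_ne hi]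
  · intro z hz hz'
    simp only [F', Function.update_self] at hz'
    exact hU' z (hy1.trans (show n' ≤ m by omega) hz) hz'
  · intro i k
    exact (hF i k).mono (show n' ≤ m by omega) hy1

/-- The sequence of states. -/
noncomputable def sts [Nonempty (Sta X)] (R : ℕ → Set (ℕ → X)) (σ : Sta X) : ℕ → Sta X
  | 0 => σ
  | s + 1 => Classical.epsilon (Stp R s (sts R σ s))

/-- All sets can be avoided simultaneously. -/
theorem exists_generic {R : ℕ → Set (ℕ → X)} (hR : Avd R) (n : ℕ) (x : ℕ → X) :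
    ∃ y, Ag n x y ∧ ∀ s, y ∉ R s := by
  have : Nonempty (Sta X) := ⟨⟨n, x, fun _ _ => Set.univ⟩⟩
  set S := sts R ⟨n, x, fun _ _ => Set.univ⟩ with hS
  have hinv : ∀ s, (S s).Inv ∧ Stp R s (S s) (S (s + 1)) := by
    intro s
    have h1 : ∀ s, (S s).Inv := by
      intro s
      induction s with
      | zero => exact fun i k => dd_univ _ _
      | succ s ih =>
        have h2 : Stp R s (S s) (S (s + 1)) := Classical.epsilon_spec (exists_stp hR s ih)
        exact h2.2.2.2.2.2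
    exact ⟨h1 s, Classical.epsilon_spec (exists_stp hR s (h1 s))⟩
  have hle : ∀ s s', s ≤ s' → (S s).n ≤ (S s').n ∧ Ag (S s).n (S s).x (S s').x := by
    intro s s' h
    induction s', h using Nat.le_induction with
    | base => exact ⟨le_rfl, Ag.refl _ _⟩
    | succ s' _ ih =>
      have h2 := (hinv s').2
      exact ⟨ih.1.trans h2.1.le, ih.2.trans ih.1 h2.2.1⟩
  have hn : ∀ s, s ≤ (S s).n := by
    intro s
    induction s with
    | zero => exact Nat.zero_le _
    | succ s ih =>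
      have h2 := (hinv s).2.1
      omega
  have hF : ∀ i s, i < s → (S s).F i = (S (i + 1)).F i := by
    intro i s h
    induction s, h using Nat.le_induction with
    | base => rfl
    | succ s h ih =>
      rw [← ih]
      exact (hinv s).2.2.2.1 i (by omega)
  let y : ℕ → X := fun i => (S (i + 1)).x i
  have hy : ∀ s, Ag (S s).n (S s).x y := by
    intro s i hi
    have h1 := (hle (i + 1) (max (i + 1) s) (le_max_left _ _)).2 i (by
      have := hn (i + 1)
      omega)
    have h2 := (hle s (max (i + 1) s) (le_max_right _ _)).2 i hi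
    change (S (i + 1)).x i = (S s).x i
    rw [← h1, ← h2]
  refine ⟨y, hy 0, fun s => ?_⟩
  refine (hinv s).2.2.2.2.2.1 y (hy (s + 1)) fun k => ?_
  have h1 := (hinv (Nat.pair s k)).2.2.2.2.1 y (hy _)
  simp only [Nat.unpair_pair] at h1
  rwa [hF s _ (Nat.lt_succ_of_le (Nat.left_le_pair s k))] at h1

end

end Pool.Agent.N620.WP
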