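import Pool.Agent.N620.WP.Brl

set_option autoImplicit false

/-! The main theorem. -/

namespace Pool.Agent.N620.WP

open Pool.Agent.Helper227
open Encodable MeasureTheory
open Pool.Agent.H685R3 (TuringInvariant Determined)
open Pool.Agent.Y588.PD (Fam RLe exists_fam)
open Pool.Agent.TH774.TD (const_on_cone)

variable {E : ℕ → List Bool → ℕ → Bool → Prop} {A : Set (ℕ → Bool)}

/-- The Turing saturation of the set of all reals whose relation to `A` is decoded correctly. -/
def SS (E : ℕ → List Bool → ℕ → Bool → Prop) (A : Set (ℕ → Bool)) : Set (ℕ → Bool) :=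
  {x | ∃ x', TLe x' x ∧ TLe x x' ∧ ∀ e, (Psi (VE E) e x' ∈ A ↔ G (VE E) e x' 0 = true)}

/-- The set of all reals of the Turing degree of some `a ⊕ w` with `a` in `A`. -/
def DD (A : Set (ℕ → Bool)) (w : ℕ → Bool) : Set (ℕ → Bool) :=
  {x | ∃ a ∈ A, TLe (join a w) x ∧ TLe x (join a w)}

theorem inv_SS : TuringInvariant (SS E A) := by
  rintro x y h1 h2 ⟨x', h3, h4, h5⟩
  exact ⟨x', TLe.trans h3 h1, TLe.trans h2 h4, h5⟩

theorem inv_DD (w : ℕ → Bool) : TuringInvariant (DD A w) := by
  rintro x y h1 h2 ⟨a, ha, h3, h4⟩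
  exact ⟨a, ha, TLe.trans h3 h1, TLe.trans h2 h4⟩

theorem cone_of_determined {S : Set (ℕ → Bool)} (hS : TuringInvariant S) (hD : Determined S) :
    ∃ z : ℕ → Bool, (∀ u, TLe z u → u ∈ S) ∨ ∀ u, TLe z u → u ∉ S := by
  obtain ⟨z, hz⟩ := const_on_cone (S := fun _ => S) (fun _ => hS) fun _ => hD
  exact ⟨z, hz 0⟩

/-- The set `A` has members of all degrees above some `w`, relative to `w`. -/
def Full (A : Set (ℕ → Bool)) : Prop :=
  ∃ w, ∀ z, TLe w z → ∃ a ∈ A, TLe (join a w) z ∧ TLe z (join a w)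

theorem full_of_cone {w z : ℕ → Bool} (h : ∀ u, TLe z u → u ∈ DD A w) : Full A := by
  refine ⟨join w z, fun u hu => ?_⟩
  obtain ⟨a, ha, h1, h2⟩ := h u ((tLe_join_right w z).trans hu)
  refine ⟨a, ha, join_tLe ((tLe_join_left a w).trans h1) hu, h2.trans ?_⟩
  exact join_tLe (tLe_join_left _ _) ((tLe_join_left w z).trans (tLe_join_right _ _))

theorem thin_or_full (hD : ∀ w, Determined (DD A w)) : Thin A ∨ Full A := by
  by_contra hcon
  push Not at hcon
  refine hcon.1 fun w => ?_
  obtain ⟨z, hz | hz⟩ := cone_of_determined (inv_DD w) (hD w)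
  · exact absurd (full_of_cone hz) hcon.2
  · exact ⟨z, fun a ha h => hz _ h ⟨a, ha, TLe.refl _, TLe.refl _⟩⟩

/-- Sets containing a Cantor set are full. -/
theorem full_of_injection {h : (ℕ → Bool) → ℕ → Bool} (hc : Continuous h)
    (hi : Function.Injective h) (hA : ∀ c, h c ∈ A) : Full A := by
  obtain ⟨r, hr⟩ := exists_code (D := Set.univ)
    fun n => LC.of_continuousOn (continuousOn_univ.2 hc) n
  obtain ⟨r', hr'⟩ := exists_inverse_code (F := h) isClosed_univ
    (fun n => LC.of_continuousOn (continuousOn_univ.2 hc) n) hi.injOn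
  refine ⟨join r r', fun z hz => ⟨h z, hA z, ?_, ?_⟩⟩
  · exact join_tLe ((hr z trivial).trans (join_tLe (TLe.refl z) ((tLe_join_left r r').trans hz))) hz
  · exact (hr' z trivial).trans (join_tLe (tLe_join_left _ _)
      ((tLe_join_right r r').trans (tLe_join_right _ _)))

theorem polish : PolishSpace (ℕ → Bool) := by
  have : TopologicalSpace.IsCompletelyMetrizableSpace (ℕ → Bool) :=
    TopologicalSpace.IsCompletelyMetrizableSpace.pi_countable
  infer_instance

theorem full_of_measurable (hA : MeasurableSet A) (hc : ¬ A.Countable) : Full A := by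
  have := polish
  obtain ⟨t', ht', hP, hcl, -⟩ := hA.isClopenable
  obtain ⟨f, h1, h2, h3⟩ := @IsClosed.exists_nat_bool_injection_of_not_countable _ t' hP A hcl hc
  refine full_of_injection (h := f) ?_ h3 fun c => h1 ⟨c, rfl⟩
  exact continuous_le_rng ht' h2

theorem main (hE : Fam E) (hE' : ∀ x y, TLe x y ↔ RLe E x y) (hS : Determined (SS E A))
    (hD : ∀ w, Determined (DD A w)) : A.Countable ∨ Full A := by
  by_contra hcon
  push Not at hcon
  obtain ⟨hc, hF⟩ := hcon
  have hT : Thin A := (thin_or_full hD).resolve_right hF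
  have hm : ¬ MeasurableSet A := fun hm => hF (full_of_measurable hm hc)
  obtain ⟨r, hr⟩ := exists_base (VE E)
  obtain ⟨z, hz | hz⟩ := cone_of_determined (inv_SS (E := E) (A := A)) hS
  · obtain ⟨X, h1, h2⟩ := not_decodable hE hE' hm z
    exact h2 (hz X h1)
  · obtain ⟨y, h1, h2⟩ := fusion (pf_VE hE) hr hT z
    exact hz y h1 ⟨y, TLe.refl _, TLe.refl _, h2⟩

end Pool.Agent.N620.WP
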