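import Pool.Agent.N620.WP.Cor

set_option autoImplicit false

/-! Measurability of the functionals and of the decoding; strong measure zero sets. -/

namespace Pool.Agent.N620.WP

open Pool.Agent.Helper227
open Encodable MeasureTheory
open Pool.Agent.Y588.PD (Fam RLe exists_fam)

variable {E : ℕ → List Bool → ℕ → Bool → Prop} {A : Set (ℕ → Bool)}

theorem measurable_psi (hE : Fam E) : Measurable fun (y : ℕ → Bool) e => Psi (VE E) e y := by
  classical
  refine measurable_pi_iff.2 fun e => measurable_pi_iff.2 fun m => measurable_to_bool ?_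
  have h1 : (fun y : ℕ → Bool => Psi (VE E) e y m) ⁻¹' {true} =
      (⋂ n : ℕ, ⋃ b : Bool, VE E e n b) ∩ VE E e m true := by
    ext y
    simp only [Set.mem_preimage, Set.mem_singleton_iff, Psi, Set.mem_inter_iff, Set.mem_iInter,
      Set.mem_iUnion]
    by_cases hd : Dm (VE E) e y
    · rw [if_pos hd]
      exact ⟨fun h => ⟨hd, of_decide_eq_true h⟩, fun h => decide_eq_true h.2⟩
    · rw [if_neg hd]
      exact ⟨fun h => absurd h (by simp), fun h => absurd h.1 hd⟩
  rw [h1]
  refine MeasurableSet.inter (MeasurableSet.iInter fun n => MeasurableSet.iUnion fun b => ?_) ?_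
  · exact ((pf_VE hE).isOpen e n b).measurableSet
  · exact ((pf_VE hE).isOpen e m true).measurableSet

theorem measurable_G : Measurable fun (y : ℕ → Bool) e => G (VE E) e y 0 := by
  refine measurable_pi_iff.2 fun e => measurable_to_bool ?_
  obtain ⟨H, h1, h2⟩ := exists_gd (VE E) e true
  have h3 : (fun y : ℕ → Bool => G (VE E) e y 0) ⁻¹' {true} = ⋃ a, H a := h2
  rw [h3]
  exact MeasurableSet.iUnion fun a => (h1 a).measurableSet

theorem exists_modulus {f : (ℕ → Bool) → ℕ → Bool} (hf : Continuous f) (n : ℕ) :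
    ∃ k, ∀ x x' : ℕ → Bool, (∀ i < k, x i = x' i) → f x n = f x' n := by
  let U : ℕ → Set (ℕ → Bool) := fun k => {x | ∀ x', pre x' k = pre x k → f x' n = f x n}
  have hU : ∀ k, IsOpen (U k) := by
    intro k
    rw [isOpen_iff_mem_nhds]
    intro x hx
    refine Filter.mem_of_superset ((isOpen_pre x k).mem_nhds rfl) fun x1 hx1 x2 hx2 => ?_
    rw [hx x1 hx1]
    exact hx x2 (hx2.trans hx1)
  have hdir : Directed (· ⊆ ·) U := by
    refine Monotone.directed_le fun k l hkl x hx x' hx' => hx x' ?_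
    exact pre_eq_mono hkl hx'
  obtain ⟨k, hk⟩ := (isCompact_univ (X := ℕ → Bool)).elim_directed_cover U hU (fun x _ => by
    obtain ⟨k, hk⟩ := LC.of_continuousOn (continuousOn_univ.2 hf) n x trivial
    exact Set.mem_iUnion.2 ⟨k, fun x' hx' => hk x' trivial hx'⟩) hdir
  refine ⟨k, fun x x' h => ?_⟩
  exact (hk (Set.mem_univ x) x' (pre_eq_iff.2 fun i hi => (h i hi).symm)).symm

/-- The set `A` has strong measure zero. -/
def SMZ (A : Set (ℕ → Bool)) : Prop :=
  ∀ g : ℕ → ℕ, ∃ c : ℕ → ℕ → Bool, ∀ a ∈ A, ∃ n, ∀ i < g n, a i = c n i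

theorem Pos.not_smz (h : Pos A) : ¬ SMZ A := by
  intro hS
  obtain ⟨f, h1, h2⟩ := h.surj
  choose g hg using fun n => exists_modulus h1 n
  obtain ⟨c, hc⟩ := hS g
  obtain ⟨a, ha, h3⟩ := h2 fun n => !(f (c n) n)
  obtain ⟨n, hn⟩ := hc a ha
  have h4 := hg n a (c n) hn
  have h5 := congrFun h3 n
  rw [h4] at h5
  revert h5
  cases f (c n) n <;> simp

end Pool.Agent.N620.WP
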