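import Pool.Agent.N620.WP.Emb

set_option autoImplicit false

/-! Thinning of tree embeddings. -/

namespace Pool.Agent.N620.WP

open Pool.Agent.Helper227
open Encodable

section sel

variable {α : Type*} [Encodable α] [Inhabited α]

open Classical in
/-- The first element with the property `p`. -/
noncomputable def sel (p : α → Prop) : α :=
  if h : ∃ n, ∃ x, encode x = n ∧ p x then Classical.choose (Nat.find_spec h) else default

theorem sel_spec' {p : α → Prop} (h : ∃ x, p x) :
    p (sel p) ∧ ∀ x, p x → encode (sel p) ≤ encode x := by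
  classical
  have h1 : ∃ n, ∃ x, encode x = n ∧ p x := by
    obtain ⟨x, hx⟩ := h
    exact ⟨_, x, rfl, hx⟩
  have h2 : sel p = Classical.choose (Nat.find_spec h1) := by
    unfold sel
    rw [dif_pos h1]
  have h3 := Classical.choose_spec (Nat.find_spec h1)
  rw [← h2] at h3
  refine ⟨h3.2, fun x hx => ?_⟩
  rw [h3.1]
  exact Nat.find_min' h1 ⟨x, rfl, hx⟩

theorem sel_spec {p : α → Prop} (h : ∃ x, p x) : p (sel p) := (sel_spec' h).1

theorem sel_eq {p : α → Prop} {x : α} (hx : p x) (h : ∀ x', encode x' < encode x → ¬ p x') :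
    sel p = x := by
  obtain ⟨h1, h2⟩ := sel_spec' ⟨x, hx⟩
  have h3 := h2 x hx
  rcases h3.lt_or_eq with h4 | h4
  · exact absurd h1 (h _ h4)
  · exact encode_injective h4

theorem LC.sel {p : (ℕ → Bool) → α → Prop} {P : Set (ℕ → Bool)} (h : ∀ a, LC (fun x => p x a) P)
    (he : ∀ x ∈ P, ∃ a, p x a) : LC (fun x => WP.sel (p x)) P := by
  intro x hx
  obtain ⟨h1, h2⟩ := sel_spec' (he x hx)
  have hf : ({a : α | encode a ≤ encode (WP.sel (p x))}).Finite :=
    (Set.finite_le_nat _).preimage encode_injective.injOn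
  obtain ⟨k, hk⟩ := LC.unif h hf.toFinset hx
  refine ⟨k, fun x' hx' h' => ?_⟩
  have h3 := hk x' hx' h'
  refine sel_eq ?_ fun a ha => ?_
  · rw [h3 _ (by simp)]
    exact h1
  · rw [h3 a (by simpa using ha.le)]
    intro h4
    have h5 : encode a < encode (WP.sel (p x)) := ha
    have h6 := h2 a h4
    omega

end sel

section op

variable (Q : ℕ → List Bool → List Bool → Prop) (t : List Bool → List Bool)

/-- The pair `p` of incomparable nodes above `α` has the property `Q m`. -/
def Val (α : List Bool) (m : ℕ) (p : List Bool × List Bool) : Prop :=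
  α <:+ p.1 ∧ α <:+ p.2 ∧ IncS p.1 p.2 ∧ Q m (t p.1) (t p.2)

/-- No pair of nodes above `κ.1` has the property `Q κ.2`. -/
def Fail (κ : List Bool × ℕ) : Prop := ∀ p, ¬ Val Q t κ.1 κ.2 p

/-- The nodes of the thinned tree. -/
noncomputable def sp : List Bool → List Bool
  | [] => []
  | b :: ρ => if b then (sel (Val Q t (sp ρ) ρ.length)).2 else (sel (Val Q t (sp ρ) ρ.length)).1

open Classical in
/-- Restrict to the first failure, if there is one, or else thin the tree such that any two
siblings of level `m` have the property `Q m`. -/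
noncomputable def Op : List Bool → List Bool :=
  if ∃ κ, Fail Q t κ then (fun ρ => t (ρ ++ (sel (Fail Q t)).1)) else fun ρ => t (sp Q t ρ)

variable {Q t}

theorem op_fail (h : ∃ κ, Fail Q t κ) : Op Q t = fun ρ => t (ρ ++ (sel (Fail Q t)).1) := by
  unfold Op
  rw [if_pos h]

theorem op_nofail (h : ∀ κ, ¬ Fail Q t κ) : Op Q t = fun ρ => t (sp Q t ρ) := by
  unfold Op
  rw [if_neg (not_exists.2 h)]

theorem sp_spec (h : ∀ κ, ¬ Fail Q t κ) (ρ : List Bool) :
    Val Q t (sp Q t ρ) ρ.length (sp Q t (false :: ρ), sp Q t (true :: ρ)) := by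
  have h1 : ∃ p, Val Q t (sp Q t ρ) ρ.length p := by
    by_contra hc
    push Not at hc
    exact h (sp Q t ρ, ρ.length) hc
  have h2 := sel_spec h1
  exact h2

theorem sp_suffix (h : ∀ κ, ¬ Fail Q t κ) (ρ : List Bool) (b : Bool) :
    sp Q t ρ <:+ sp Q t (b :: ρ) := by
  cases b
  · exact (sp_spec h ρ).1
  · exact (sp_spec h ρ).2.1

theorem sp_incS (h : ∀ κ, ¬ Fail Q t κ) (ρ : List Bool) :
    IncS (sp Q t (false :: ρ)) (sp Q t (true :: ρ)) := (sp_spec h ρ).2.2.1

theorem length_sp (h : ∀ κ, ¬ Fail Q t κ) (ρ : List Bool) : ρ.length ≤ (sp Q t ρ).length := by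
  induction ρ with
  | nil => simp
  | cons b ρ ih =>
    have h1 : (sp Q t ρ).length < (sp Q t (b :: ρ)).length := by
      by_contra hc
      have h2 := (sp_suffix h ρ b).eq_of_length_le (by omega)
      have h3 := sp_suffix h ρ (!b)
      rw [h2] at h3
      have h4 := sp_incS h ρ
      cases b
      · exact h4.1 h3
      · exact h4.2 h3
    simp only [List.length_cons]
    omega

theorem IsEmb.op (ht : IsEmb t) : IsEmb (Op Q t) := by
  by_cases h : ∃ κ, Fail Q t κ
  · rw [op_fail h]
    exact ⟨fun ρ b => ht.mono _ _, fun ρ => ht.split _⟩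
  · push Not at h
    rw [op_nofail h]
    exact ⟨fun ρ b => ht.le (sp_suffix h ρ b), fun ρ => ht.inc (sp_incS h ρ)⟩

theorem IsEmb.body_op (ht : IsEmb t) : body (Op Q t) ⊆ body t := by
  by_cases h : ∃ κ, Fail Q t κ
  · rw [op_fail h]
    exact ht.body_comp fun ρ => by simp
  · push Not at h
    rw [op_nofail h]
    exact ht.body_comp (length_sp h)


end op

/-! ### Families of partial continuous functionals -/

/-- `V e m b` is the open set on which the functional `e` has the value `b` at `m`. -/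
structure PF (V : ℕ → ℕ → Bool → Set (ℕ → Bool)) : Prop where
  isOpen : ∀ e m b, IsOpen (V e m b)
  disj : ∀ e m y, y ∈ V e m false → y ∉ V e m true

variable (V : ℕ → ℕ → Bool → Set (ℕ → Bool))

/-- The domain of the functional. -/
def Dm (e : ℕ) (y : ℕ → Bool) : Prop := ∀ m, ∃ b, y ∈ V e m b

open Classical in
/-- The functional, extended by a constant. -/
noncomputable def Psi (e : ℕ) (y : ℕ → Bool) : ℕ → Bool := fun m =>
  if Dm V e y then decide (y ∈ V e m true) else false

/-- All points above `σ` are in `U`. -/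
def Fc (σ : List Bool) (U : Set (ℕ → Bool)) : Prop := ∀ y, Sub σ y → y ∈ U

/-- The property ensuring convergence. -/
def QA (e m : ℕ) (σ τ : List Bool) : Prop := (∃ b, Fc σ (V e m b)) ∧ ∃ b, Fc τ (V e m b)

/-- The property ensuring injectivity. -/
def QB (e : ℕ) (_ : ℕ) (σ τ : List Bool) : Prop := ∃ m, Fc σ (V e m false) ∧ Fc τ (V e m true)

/-- Thinning for the functional `e`. -/
noncomputable def OpE (e : ℕ) (t : List Bool → List Bool) : List Bool → List Bool :=
  Op (QB V e) (Op (QA V e) t)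

variable {V}

theorem Fc.mono {σ τ : List Bool} {U : Set (ℕ → Bool)} (h : Fc σ U) (hσ : σ <+: τ) : Fc τ U :=
  fun y hy => h y (hy.of_prefix hσ)

theorem Fc.nonempty {σ : List Bool} {U : Set (ℕ → Bool)} (h : Fc σ U) : ∃ y, Sub σ y ∧ y ∈ U := by
  obtain ⟨y, hy⟩ := exists_sub σ
  exact ⟨y, hy, h y hy⟩

theorem PF.unique (hV : PF V) {e m : ℕ} {b b' : Bool} {y : ℕ → Bool} (h : y ∈ V e m b)
    (h' : y ∈ V e m b') : b = b' := by
  have h1 := hV.disj e m y
  cases b <;> cases b'
  · rfl
  · exact absurd h' (h1 h)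
  · exact absurd h (h1 h')
  · rfl

theorem PF.psi (hV : PF V) {e m : ℕ} {y : ℕ → Bool} {b : Bool} (hd : Dm V e y)
    (h : y ∈ V e m b) : Psi V e y m = b := by
  unfold Psi
  rw [if_pos hd]
  cases b
  · simp [hV.disj e m y h]
  · simp [h]

theorem psi_of_not {e : ℕ} {y : ℕ → Bool} (hd : ¬ Dm V e y) : Psi V e y = fun _ => false := by
  funext m
  unfold Psi
  rw [if_neg hd]

theorem PF.psi_mem (hV : PF V) {e : ℕ} {y : ℕ → Bool} (hd : Dm V e y) (m : ℕ) :
    y ∈ V e m (Psi V e y m) := by
  obtain ⟨b, hb⟩ := hd m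
  rw [hV.psi hd hb]
  exact hb

/-- Points of a body have arbitrarily long initial segments among the values. -/
theorem IsEmb.exists_fc {t : List Bool → List Bool} (ht : IsEmb t) {U : Set (ℕ → Bool)}
    (hU : IsOpen U) {y : ℕ → Bool} (hy : y ∈ body t) (hyU : y ∈ U) (l : ℕ) :
    ∃ ρ : List Bool, l ≤ ρ.length ∧ Sub (t ρ) y ∧ Fc (t ρ) U := by
  obtain ⟨I, v, hI, hv⟩ := isOpen_pi_iff.1 hU y hyU
  obtain ⟨ρ, h1, h2⟩ := hy (max l (I.sup id + 1))
  refine ⟨ρ, by rw [h1]; exact le_max_left _ _, h2, fun y' hy' => hv fun i hi => ?_⟩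
  have h3 : i < I.sup id + 1 := Nat.lt_succ_of_le (Finset.le_sup (f := id) hi)
  have h4 := ht.len_le ρ
  have h5 : I.sup id + 1 ≤ ρ.length := by rw [h1]; exact le_max_right _ _
  have h6 : i < (t ρ).length := by omega
  rw [sub_iff.1 hy' i h6, ← sub_iff.1 h2 i h6]
  exact (hI i hi).2

theorem isEmb_above {t : List Bool → List Bool} (ht : IsEmb t) (τ : List Bool) :
    IsEmb fun ρ => t (ρ ++ τ) := ⟨fun _ _ => ht.mono _ _, fun _ => ht.split _⟩

/-- Above a failure of convergence the functional is undefined. -/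
theorem undefined_of_fail {t : List Bool → List Bool} (hV : PF V) (ht : IsEmb t) {e : ℕ}
    {κ : List Bool × ℕ} (h : Fail (QA V e) t κ) {y : ℕ → Bool}
    (hy : y ∈ body fun ρ => t (ρ ++ κ.1)) : ¬ Dm V e y := by
  intro hd
  obtain ⟨b, hb⟩ := hd κ.2
  obtain ⟨ρ, -, -, h1⟩ := (isEmb_above ht κ.1).exists_fc (hV.isOpen e κ.2 b) hy hb 0
  refine h (false :: (ρ ++ κ.1), true :: (ρ ++ κ.1)) ⟨?_, ?_, incS_cons _, ⟨b, ?_⟩, ⟨b, ?_⟩⟩
  · exact (List.suffix_append ρ κ.1).trans (List.suffix_cons _ _)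
  · exact (List.suffix_append ρ κ.1).trans (List.suffix_cons _ _)
  · exact h1.mono (ht.mono _ _)
  · exact h1.mono (ht.mono _ _)

/-- Without failures of convergence the functional is total on the thinned tree. -/
theorem defined_of_nofail {t : List Bool → List Bool} {e : ℕ}
    (h : ∀ κ, ¬ Fail (QA V e) t κ) {y : ℕ → Bool}
    (hy : y ∈ body fun ρ => t (sp (QA V e) t ρ)) : Dm V e y := by
  intro m
  obtain ⟨ρ, h1, h2⟩ := hy (m + 1)
  obtain ⟨b, ρ, rfl⟩ : ∃ b ρ', ρ = b :: ρ' := by
    cases ρ with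
    | nil => simp at h1
    | cons b ρ => exact ⟨b, ρ, rfl⟩
  have h3 := (sp_spec h ρ).2.2.2
  simp only [List.length_cons, Nat.add_right_cancel_iff] at h1
  rw [h1] at h3
  cases b
  · obtain ⟨c, hc⟩ := h3.1
    exact ⟨c, hc y h2⟩
  · obtain ⟨c, hc⟩ := h3.2
    exact ⟨c, hc y h2⟩

/-- Above a failure of splitting the functional is constant. -/
theorem const_of_fail {t : List Bool → List Bool} (hV : PF V) (ht : IsEmb t) {e : ℕ}
    {κ : List Bool × ℕ} (h : Fail (QB V e) t κ) {y y' : ℕ → Bool}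
    (hy : y ∈ body fun ρ => t (ρ ++ κ.1)) (hy' : y' ∈ body fun ρ => t (ρ ++ κ.1))
    (hd : Dm V e y) (hd' : Dm V e y') : Psi V e y = Psi V e y' := by
  funext m
  have hb := hV.psi_mem hd m
  have hb' := hV.psi_mem hd' m
  obtain ⟨ρ, -, -, h1⟩ := (isEmb_above ht κ.1).exists_fc (hV.isOpen e m _) hy hb 0
  obtain ⟨ρ', -, -, h1'⟩ := (isEmb_above ht κ.1).exists_fc (hV.isOpen e m _) hy' hb' 0
  by_contra hne
  have hinc : IncS (ρ ++ κ.1) (ρ' ++ κ.1) := by
    constructor
    · intro hs
      obtain ⟨z, hz, hz'⟩ := h1'.nonempty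
      exact hne (hV.unique (h1 z (hz.of_prefix (ht.le hs))) hz')
    · intro hs
      obtain ⟨z, hz, hz'⟩ := h1.nonempty
      exact hne (hV.unique hz' (h1' z (hz.of_prefix (ht.le hs))))
  generalize Psi V e y m = b at *
  generalize Psi V e y' m = b' at *
  cases b <;> cases b'
  · exact hne rfl
  · exact h (ρ ++ κ.1, ρ' ++ κ.1) ⟨List.suffix_append _ _, List.suffix_append _ _, hinc, m, h1, h1'⟩
  · exact h (ρ' ++ κ.1, ρ ++ κ.1)
      ⟨List.suffix_append _ _, List.suffix_append _ _, hinc.symm, m, h1', h1⟩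
  · exact hne rfl

/-- Without failures of splitting the functional is injective on the thinned tree. -/
theorem inj_of_nofail {t : List Bool → List Bool} (hV : PF V) (ht : IsEmb t) {e : ℕ}
    (h : ∀ κ, ¬ Fail (QB V e) t κ) {y y' : ℕ → Bool}
    (hy : y ∈ body fun ρ => t (sp (QB V e) t ρ)) (hy' : y' ∈ body fun ρ => t (sp (QB V e) t ρ))
    (hd : Dm V e y) (hd' : Dm V e y') (heq : Psi V e y = Psi V e y') : y = y' := by
  have ht' : IsEmb fun ρ => t (sp (QB V e) t ρ) := by
    have := ht.op (Q := QB V e)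
    rwa [op_nofail h] at this
  have h1 : ∀ k, brn (fun ρ => t (sp (QB V e) t ρ)) y k =
      brn (fun ρ => t (sp (QB V e) t ρ)) y' k := by
    intro k
    induction k with
    | zero => rfl
    | succ k ih =>
      have h2 := ht'.mem_body.1 hy (k + 1)
      have h3 := ht'.mem_body.1 hy' (k + 1)
      rw [brn_succ] at h2 h3
      rw [← ih] at h3
      rw [brn_succ, brn_succ, ← ih]
      congr 1
      obtain ⟨m, h4, h5⟩ := (sp_spec h (brn (fun ρ => t (sp (QB V e) t ρ)) y k)).2.2.2
      generalize inv (fun ρ => t (sp (QB V e) t ρ)) y k = b at *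
      generalize inv (fun ρ => t (sp (QB V e) t ρ)) y' k = b' at *
      have h6 := congrFun heq m
      cases b <;> cases b'
      · rfl
      · rw [hV.psi hd (h4 y h2), hV.psi hd' (h5 y' h3)] at h6
        exact h6
      · rw [hV.psi hd (h5 y h2), hV.psi hd' (h4 y' h3)] at h6
        exact h6
      · rfl
  have h2 : inv (fun ρ => t (sp (QB V e) t ρ)) y = inv (fun ρ => t (sp (QB V e) t ρ)) y' :=
    rp_inj fun k => by rw [← brn_eq, ← brn_eq, h1]
  rw [← ht'.pt_inv hy, ← ht'.pt_inv hy', h2]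

theorem IsEmb.opE {t : List Bool → List Bool} (ht : IsEmb t) (e : ℕ) : IsEmb (OpE V e t) :=
  ht.op.op

theorem IsEmb.body_opE {t : List Bool → List Bool} (ht : IsEmb t) (e : ℕ) :
    body (OpE V e t) ⊆ body t := (ht.op.body_op).trans ht.body_op

/-- On the thinned tree the functional is constant, or injective and continuous. -/
theorem PF.dichotomy (hV : PF V) {t : List Bool → List Bool} (ht : IsEmb t) (e : ℕ) :
    (∃ v, ∀ y ∈ body (OpE V e t), Psi V e y = v) ∨
      (Set.InjOn (Psi V e) (body (OpE V e t)) ∧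
        ∀ n, LC (fun y => Psi V e y n) (body (OpE V e t))) := by
  by_cases h : ∃ κ, Fail (QA V e) t κ
  · refine Or.inl ⟨fun _ => false, fun y hy => psi_of_not ?_⟩
    have h1 := ht.op.body_op hy
    rw [op_fail h] at h1
    exact undefined_of_fail hV ht (sel_spec h) h1
  · push Not at h
    have hdom : ∀ y ∈ body (Op (QA V e) t), Dm V e y := by
      intro y hy
      rw [op_nofail h] at hy
      exact defined_of_nofail h hy
    have ht' : IsEmb (Op (QA V e) t) := ht.op
    by_cases h' : ∃ κ, Fail (QB V e) (Op (QA V e) t) κ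
    · left
      refine ⟨Psi V e (pt (OpE V e t) fun _ => false), fun y hy => ?_⟩
      have hy0 := (ht.opE (V := V) e).pt_mem fun _ => false
      have hy1 := ht'.body_op hy
      have hy2 := ht'.body_op hy0
      unfold OpE at hy hy0
      rw [op_fail h'] at hy hy0
      exact const_of_fail hV ht' (sel_spec h') hy (by
        unfold OpE
        rw [op_fail h']
        exact hy0) (hdom _ hy1) (hdom _ hy2)
    · push Not at h'
      right
      refine ⟨fun y hy y' hy' heq => ?_, fun n y hy => ?_⟩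
      · have hy1 := ht'.body_op hy
        have hy2 := ht'.body_op hy'
        unfold OpE at hy hy'
        rw [op_nofail h'] at hy hy'
        exact inj_of_nofail hV ht' h' hy hy' (hdom _ hy1) (hdom _ hy2) heq
      · have hd := hdom _ (ht'.body_op hy)
        have hb := hV.psi_mem hd n
        obtain ⟨ρ, -, h1, h2⟩ := (ht.opE (V := V) e).exists_fc (hV.isOpen e n _) hy hb 0
        refine ⟨(OpE V e t ρ).length, fun y' hy' h3 => ?_⟩
        have hd' := hdom _ (ht'.body_op hy')
        have h4 : Sub (OpE V e t ρ) y' := by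
          unfold Sub at h1 ⊢
          rw [h3, h1]
        exact hV.psi hd' (h2 y' h4)

end Pool.Agent.N620.WP
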