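import Pool.Agent.N620.WP.Main

set_option autoImplicit false

/-! Marczewski null sets. -/

namespace Pool.Agent.N620.WP

open Pool.Agent.Helper227
open Encodable MeasureTheory
open Pool.Agent.Y588.PD (Fam RLe exists_fam)

/-! ### Cantor sets contain bodies of tree embeddings -/

/-- The map `g` sends the cylinder of `p.1` into the cylinder of `p.2`. -/
def Gd (g : (ℕ → Bool) → ℕ → Bool) (p : List Bool × List Bool) : Prop :=
  ∀ c, Sub p.1 c → Sub p.2 (g c)

theorem exists_mod {g : (ℕ → Bool) → ℕ → Bool} (hg : Continuous g) (c : ℕ → Bool) (L : ℕ) :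
    ∃ k, ∀ c', pre c' k = pre c k → pre (g c') L = pre (g c) L := by
  have h := fun n => LC.of_continuousOn (P := Set.univ) (continuousOn_univ.2 hg) n
  obtain ⟨k, hk⟩ := LC.unif (f := fun x n => g x n) h (Finset.range L) (Set.mem_univ c)
  refine ⟨k, fun c' hc' => pre_eq_iff.2 fun i hi => ?_⟩
  exact hk c' trivial hc' i (by simpa using hi)

/-- `q` is a pair of good successors of `p`. -/
def Chd (g : (ℕ → Bool) → ℕ → Bool) (p : List Bool × List Bool)
    (q : (List Bool × List Bool) × (List Bool × List Bool)) : Prop :=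
  (Gd g q.1 ∧ p.1 <+: q.1.1 ∧ p.1.length < q.1.1.length ∧ p.2 <+: q.1.2) ∧
    (Gd g q.2 ∧ p.1 <+: q.2.1 ∧ p.1.length < q.2.1.length ∧ p.2 <+: q.2.2) ∧ Inc q.1.2 q.2.2

theorem exists_child {g : (ℕ → Bool) → ℕ → Bool} (hg : Continuous g)
    (hi : Function.Injective g) {p : List Bool × List Bool} (hp : Gd g p) :
    ∃ q, Chd g p q := by
  -- two points above `p.1`
  have key : ∀ c0 c1 : ℕ → Bool, Sub p.1 c0 → Sub p.1 c1 → ∀ i, g c0 i = false → g c1 i = true →
      ∃ q : (List Bool × List Bool) × (List Bool × List Bool), (Gd g q.1 ∧ p.1 <+: q.1.1 ∧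
      p.1.length < q.1.1.length ∧ p.2 <+: q.1.2) ∧ (Gd g q.2 ∧ p.1 <+: q.2.1 ∧
      p.1.length < q.2.1.length ∧ p.2 <+: q.2.2) ∧ Inc q.1.2 q.2.2 := by
    intro c0 c1 h0 h1 i hi0 hi1
    have hchild : ∀ c, Sub p.1 c → ∃ k, Gd g (pre c k, pre (g c) (max (i + 1) p.2.length)) ∧
        p.1 <+: pre c k ∧ p.1.length < (pre c k).length ∧
        p.2 <+: pre (g c) (max (i + 1) p.2.length) := by
      intro c hc
      obtain ⟨k, hk⟩ := exists_mod hg c (max (i + 1) p.2.length)
      refine ⟨max k (p.1.length + 1), fun c' hc' => ?_, ?_, ?_, ?_⟩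
      · unfold Sub at hc' ⊢
        simp only [length_pre] at hc' ⊢
        exact hk c' (pre_eq_mono (le_max_left _ _) hc')
      · rw [hc.eq_pre, length_pre]
        exact pre_prefix c (by omega)
      · rw [length_pre]
        omega
      · have h2 := hp c hc
        rw [h2.eq_pre, length_pre]
        exact pre_prefix _ (by omega)
    obtain ⟨k0, h2, h3, h4, h5⟩ := hchild c0 h0
    obtain ⟨k1, h2', h3', h4', h5'⟩ := hchild c1 h1
    refine ⟨((_, _), (_, _)), ⟨h2, h3, h4, h5⟩, ⟨h2', h3', h4', h5'⟩, ?_⟩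
    have h6 : i < max (i + 1) p.2.length := by omega
    constructor <;>
    · intro h7
      have h8 := h7.eq_of_length (by simp)
      have h9 := pre_eq_iff.1 h8 i h6
      rw [hi0, hi1] at h9
      cases h9
  obtain ⟨y, hy⟩ := exists_sub p.1
  let y' : ℕ → Bool := Function.update y p.1.length (!(y p.1.length))
  have hy' : Sub p.1 y' := by
    rw [sub_iff] at hy ⊢
    intro i hi'
    simp only [y']
    rw [Function.update_of_ne (by omega)]
    exact hy i hi'
  have hne : g y ≠ g y' := by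
    intro h
    have h1 := congrFun (hi h) p.1.length
    simp only [y', Function.update_self] at h1
    revert h1
    cases y p.1.length <;> simp
  obtain ⟨i, hi'⟩ := Function.ne_iff.1 hne
  generalize hb : g y i = b at hi'
  generalize hb' : g y' i = b' at hi'
  cases b <;> cases b'
  · exact absurd rfl hi'
  · exact key y y' hy hy' i hb hb'
  · exact key y' y hy' hy i hb' hb
  · exact absurd rfl hi'

/-- The nodes. -/
noncomputable def nd (g : (ℕ → Bool) → ℕ → Bool) : List Bool → List Bool × List Bool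
  | [] => ([], [])
  | b :: ρ =>
    let q := Classical.epsilon fun q => Chd g (nd g ρ) q
    if b then q.2 else q.1

theorem nd_spec {g : (ℕ → Bool) → ℕ → Bool} (hg : Continuous g) (hi : Function.Injective g) :
    (∀ ρ, Gd g (nd g ρ)) ∧ (∀ ρ b, (nd g ρ).1 <+: (nd g (b :: ρ)).1 ∧
      (nd g ρ).1.length < (nd g (b :: ρ)).1.length ∧ (nd g ρ).2 <+: (nd g (b :: ρ)).2) ∧
    ∀ ρ, Inc (nd g (false :: ρ)).2 (nd g (true :: ρ)).2 := by
  have h1 : ∀ ρ, Gd g (nd g ρ) → Chd g (nd g ρ) (nd g (false :: ρ), nd g (true :: ρ)) :=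
    fun ρ hρ => Classical.epsilon_spec (exists_child hg hi hρ)
  have h2 : ∀ ρ, Gd g (nd g ρ) := by
    intro ρ
    induction ρ with
    | nil => intro c _; simp [nd, Sub, pre]
    | cons b ρ ih =>
      have h3 := h1 ρ ih
      cases b
      · exact h3.1.1
      · exact h3.2.1.1
  refine ⟨h2, fun ρ b => ?_, fun ρ => (h1 ρ (h2 ρ)).2.2⟩
  cases b
  · exact (h1 ρ (h2 ρ)).1.2
  · exact (h1 ρ (h2 ρ)).2.1.2

/-- Every Cantor set contains the body of a tree embedding. -/
theorem exists_emb {g : (ℕ → Bool) → ℕ → Bool} (hg : Continuous g) (hi : Function.Injective g) :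
    ∃ t, IsEmb t ∧ body t ⊆ Set.range g := by
  obtain ⟨h1, h2, h3⟩ := nd_spec hg hi
  have ht : IsEmb fun ρ => (nd g ρ).2 := ⟨fun ρ b => (h2 ρ b).2.2, h3⟩
  refine ⟨_, ht, fun y hy => ?_⟩
  rw [ht.mem_body] at hy
  set c := inv (fun ρ => (nd g ρ).2) y with hc
  have hlen : ∀ k, k ≤ (nd g (rp c k)).1.length := by
    intro k
    induction k with
    | zero => exact Nat.zero_le _
    | succ k ih =>
      have := (h2 (rp c k) (c k)).2.1
      rw [rp]
      omega
  have hmono : ∀ k l, k ≤ l → (nd g (rp c k)).1 <+: (nd g (rp c l)).1 := by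
    intro k l h
    induction l, h using Nat.le_induction with
    | base => exact List.prefix_rfl
    | succ l _ ih => exact ih.trans (h2 (rp c l) (c l)).1
  let x : ℕ → Bool := fun i => (nd g (rp c (i + 1))).1.getD i false
  have hx : ∀ k, Sub (nd g (rp c k)).1 x := by
    intro k
    rw [sub_iff]
    intro i hi'
    have h4 : i < (nd g (rp c (i + 1))).1.length := by
      have := hlen (i + 1)
      omega
    have h5 : x i = (nd g (rp c (i + 1))).1[i] := List.getD_eq_getElem _ _ h4
    rw [h5]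
    rcases le_total k (i + 1) with h6 | h6
    · exact (getElem_of_prefix (hmono _ _ h6) hi' h4).symm
    · exact getElem_of_prefix (hmono _ _ h6) h4 hi'
  refine ⟨x, ?_⟩
  funext i
  have h4 := hy (i + 1)
  rw [brn_eq] at h4
  have h5 : Sub (nd g (rp c (i + 1))).2 (g x) := h1 _ x (hx (i + 1))
  have h6 : i < (nd g (rp c (i + 1))).2.length := by
    have h7 := ht.len_le (rp c (i + 1))
    simp only [length_rp] at h7
    omega
  rw [sub_iff.1 h5 i h6, sub_iff.1 h4 i h6]

/-! ### Marczewski positive sets -/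

/-- There is a Cantor set such that `A` meets each of its subsets which are Cantor sets. -/
def Pos (A : Set (ℕ → Bool)) : Prop :=
  ∃ h : (ℕ → Bool) → ℕ → Bool, Continuous h ∧ Function.Injective h ∧
    ∀ k : (ℕ → Bool) → ℕ → Bool, Continuous k → Function.Injective k → ∃ c, h (k c) ∈ A

/-- Uncountable Borel sets contain Cantor sets. -/
theorem exists_cantor {B : Set (ℕ → Bool)} (hB : MeasurableSet B) (hc : ¬ B.Countable) :
    ∃ g : (ℕ → Bool) → ℕ → Bool, Continuous g ∧ Function.Injective g ∧ ∀ c, g c ∈ B := by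
  have := polish
  obtain ⟨t', ht', hP, hcl, -⟩ := hB.isClopenable
  obtain ⟨f, h1, h2, h3⟩ := @IsClosed.exists_nat_bool_injection_of_not_countable _ t' hP B hcl hc
  exact ⟨f, continuous_le_rng ht' h2, h3, fun c => h1 ⟨c, rfl⟩⟩

theorem not_countable_univ : ¬ (Set.univ : Set (ℕ → Bool)).Countable := by
  rw [Set.countable_univ_iff]
  intro h
  obtain ⟨f, hf⟩ := exists_surjective_nat (ℕ → Bool)
  obtain ⟨n, hn⟩ := hf fun i => !(f i i)
  have h1 := congrFun hn n
  revert h1
  cases f n n <;> simp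

/-- A Cantor set minus a countable set contains a Cantor set. -/
theorem exists_avoid {C : Set (ℕ → Bool)} (hC : C.Countable) :
    ∃ g : (ℕ → Bool) → ℕ → Bool, Continuous g ∧ Function.Injective g ∧ ∀ c, g c ∉ C := by
  obtain ⟨g, h1, h2, h3⟩ := exists_cantor (B := Cᶜ) hC.measurableSet.compl fun h =>
    not_countable_univ (by rw [← Set.union_compl_self C]; exact hC.union h)
  exact ⟨g, h1, h2, h3⟩

end Pool.Agent.N620.WP
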